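import Mathlib

open Set Filter Topology

namespace Pool.Agent.Results.MP_d7bfcb_an.FlatReach

/-! STLCDefs -/

/-- The Euclidean space of dimension `n`. -/
abbrev E (n : ℕ) := EuclideanSpace ℝ (Fin n)

/-- The point `x` is reachable from the origin in time less than `t` with at most `N`
switchings: there are times `0 = τ 0 < τ 1 < ... < τ (N + 1) < t`, indices `i 0, ..., i N` and
curves `ξ j` on `[τ j, τ (j + 1)]` with derivative `f (i j) (ξ j)`, which start at the origin,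
match at the switching times and end at `x`. -/
def Reachable {n k : ℕ} (f : Fin k → E n → E n) (t : ℝ) (N : ℕ) (x : E n) : Prop :=
  ∃ (τ : ℕ → ℝ) (i : ℕ → Fin k) (ξ : ℕ → ℝ → E n),
    τ 0 = 0 ∧ (∀ j ≤ N, τ j < τ (j + 1)) ∧ τ (N + 1) < t ∧
    (∀ j ≤ N, ∀ s ∈ Icc (τ j) (τ (j + 1)),
      HasDerivWithinAt (ξ j) (f (i j) (ξ j s)) (Icc (τ j) (τ (j + 1))) s) ∧
    ξ 0 0 = 0 ∧ (∀ j < N, ξ j (τ (j + 1)) = ξ (j + 1) (τ (j + 1))) ∧ ξ N (τ (N + 1)) = x

/-- The set of the points reachable from the origin in time less than `t`. -/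
def Attainable {n k : ℕ} (f : Fin k → E n → E n) (t : ℝ) : Set (E n) :=
  {x | ∃ N, Reachable f t N x}

/-- Small-time local controllability at the origin. -/
def STLC {n k : ℕ} (f : Fin k → E n → E n) : Prop :=
  ∀ t > 0, (0 : E n) ∈ interior (Attainable f t)

/-- A polynomial vector field. -/
def IsPolynomialField {n : ℕ} (f : E n → E n) : Prop :=
  ∃ P : Fin n → MvPolynomial (Fin n) ℝ, ∀ x j, f x j = MvPolynomial.eval (fun l => x l) (P j)

/-! STLCGlue -/

lemma glue {n k : ℕ} {f : Fin k → E n → E n} {t : ℝ} {N : ℕ} {x : E n}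
    (h : Reachable f t N x) : ∃ T, 0 < T ∧ T < t ∧ ∃ q : ℝ → E n, ContinuousOn q (Icc 0 T) ∧
      q 0 = 0 ∧ q T = x ∧ ∀ s ∈ Ico 0 T, ∃ i, HasDerivWithinAt q (f i (q s)) (Ici s) s := by
  obtain ⟨τ, i, ξ, h0, hτ, hlt, hd, hξ0, hm, hx⟩ := h
  have hpos : ∀ M ≤ N, 0 < τ (M + 1) := by
    intro M
    induction M with
    | zero => intro hM; have := hτ 0 hM; rw [h0] at this; exact this
    | succ M ih => intro hM; exact (ih (by omega)).trans (hτ (M + 1) hM)
  have key : ∀ M ≤ N, ∃ q : ℝ → E n, ContinuousOn q (Icc 0 (τ (M + 1))) ∧ q 0 = 0 ∧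
      q (τ (M + 1)) = ξ M (τ (M + 1)) ∧
      ∀ s ∈ Ico 0 (τ (M + 1)), ∃ i, HasDerivWithinAt q (f i (q s)) (Ici s) s := by
    intro M
    induction M with
    | zero =>
      intro hM
      refine ⟨ξ 0, ?_, hξ0, rfl, ?_⟩
      · intro s hs
        have := (hd 0 hM s (by rw [h0]; exact hs)).continuousWithinAt
        rw [h0] at this
        exact this
      · intro s hs
        refine ⟨i 0, ?_⟩
        have h1 := hd 0 hM s (by rw [h0]; exact Ico_subset_Icc_self hs)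
        rw [h0] at h1
        exact h1.mono_of_mem_nhdsWithin (Icc_mem_nhdsGE_of_mem hs)
    | succ M ih =>
      intro hM
      obtain ⟨q, hqc, hq0, hqT, hqd⟩ := ih (by omega)
      have hMM : τ (M + 1) < τ (M + 2) := hτ (M + 1) hM
      have hM0 : 0 < τ (M + 1) := hpos M (by omega)
      have hmatch : ξ M (τ (M + 1)) = ξ (M + 1) (τ (M + 1)) := hm M (by omega)
      let r : ℝ → E n := fun s => if s < τ (M + 1) then q s else ξ (M + 1) s
      have hrge : ∀ s, τ (M + 1) ≤ s → r s = ξ (M + 1) s := by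
        intro s hs
        simp only [r, if_neg (not_lt.2 hs)]
      have hrlt : ∀ s, s < τ (M + 1) → r s = q s := by
        intro s hs
        simp only [r, if_pos hs]
      have hrle : ∀ s, s ≤ τ (M + 1) → r s = q s := by
        intro s hs
        rcases hs.lt_or_eq with h | h
        · exact hrlt s h
        · rw [h, hrge _ le_rfl, hqT, hmatch]
      refine ⟨r, ?_, ?_, ?_, ?_⟩
      · have hu : Icc 0 (τ (M + 1 + 1)) = Icc 0 (τ (M + 1)) ∪ Icc (τ (M + 1)) (τ (M + 2)) :=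
          (Icc_union_Icc_eq_Icc hM0.le hMM.le).symm
        rw [hu]
        apply ContinuousOn.union_of_isClosed _ _ isClosed_Icc isClosed_Icc
        · exact hqc.congr (fun s hs => hrle s hs.2)
        · have hc : ContinuousOn (ξ (M + 1)) (Icc (τ (M + 1)) (τ (M + 2))) :=
            fun s hs => (hd (M + 1) hM s hs).continuousWithinAt
          exact hc.congr (fun s hs => hrge s hs.1)
      · rw [hrlt 0 hM0, hq0]
      · exact hrge _ hMM.le
      · intro s hs
        by_cases hs1 : s < τ (M + 1)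
        · obtain ⟨l, hl⟩ := hqd s ⟨hs.1, hs1⟩
          refine ⟨l, ?_⟩
          rw [hrlt s hs1]
          refine hl.congr_of_eventuallyEq ?_ (hrlt s hs1)
          have : Iio (τ (M + 1)) ∈ 𝓝[≥] s := mem_nhdsWithin_of_mem_nhds (Iio_mem_nhds hs1)
          filter_upwards [this] with u hu
          exact hrlt u hu
        · push Not at hs1
          refine ⟨i (M + 1), ?_⟩
          rw [hrge s hs1]
          have h1 := (hd (M + 1) hM s ⟨hs1, hs.2.le⟩).mono_of_mem_nhdsWithin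
            (Icc_mem_nhdsGE_of_mem ⟨hs1, hs.2⟩)
          exact h1.congr (fun u hu => hrge u (hs1.trans hu)) (hrge s hs1)
  obtain ⟨q, hqc, hq0, hqT, hqd⟩ := key N le_rfl
  exact ⟨τ (N + 1), hpos N le_rfl, hlt, q, hqc, hq0, by rw [hqT, hx], hqd⟩

/-- lower bound from the right derivative. -/
lemma le_of_right_deriv {f : ℝ → ℝ} {a b C : ℝ} (hab : a ≤ b) (hf : ContinuousOn f (Icc a b))
    (hd : ∀ s ∈ Ico a b, ∃ d, C ≤ d ∧ HasDerivWithinAt f d (Ici s) s) :
    C * (b - a) ≤ f b - f a := by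
  choose! d hd1 hd2 using hd
  have h := image_le_of_deriv_right_le_deriv_boundary (f := fun s => -f s) (f' := fun s => -d s)
    (a := a) (b := b) (B := fun s => -f a - C * (s - a)) (B' := fun s => -C)
    hf.neg (fun s hs => (hd2 s hs).neg) (by simp) (by fun_prop)
    (fun s hs => by
      have h1 : HasDerivAt (fun s => -f a - C * (s - a)) (-C) s := by
        have := (((hasDerivAt_id s).sub_const a).const_mul C).const_sub (-f a)
        simpa using this
      exact h1.hasDerivWithinAt)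
    (fun s hs => by have := hd1 s hs; linarith) (right_mem_Icc.2 hab)
  linarith

lemma abs_le_of_right_deriv {f : ℝ → ℝ} {a b C : ℝ} (hf : ContinuousOn f (Icc a b))
    (hd : ∀ s ∈ Ico a b, ∃ d, |d| ≤ C ∧ HasDerivWithinAt f d (Ici s) s) :
    ∀ s ∈ Icc a b, |f s - f a| ≤ C * (s - a) := by
  choose! d hd1 hd2 using hd
  exact norm_image_sub_le_of_norm_deriv_right_le_segment hf hd2 hd1

/-! STLCHardy -/

noncomputable section

/-- the weight `L`. -/
def LL (δ x : ℝ) : ℝ := 8 + Real.log (1 + x ^ 2 / δ ^ 2)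

/-- the multiplier. -/
def GG (δ x : ℝ) : ℝ := -x / LL δ x

/-- its derivative. -/
def GG' (δ x : ℝ) : ℝ := -(1 / LL δ x) + 2 * (x ^ 2 / (δ ^ 2 + x ^ 2)) * (1 / LL δ x) ^ 2

lemma LL_ge (δ x : ℝ) : 8 ≤ LL δ x := by
  have : 0 ≤ Real.log (1 + x ^ 2 / δ ^ 2) := Real.log_nonneg (by
    have : 0 ≤ x ^ 2 / δ ^ 2 := by positivity
    linarith)
  unfold LL
  linarith

lemma hasDerivAt_GG {δ : ℝ} (hδ : 0 < δ) (x : ℝ) : HasDerivAt (GG δ) (GG' δ x) x := by
  have hL : HasDerivAt (LL δ) (2 * x / (δ ^ 2 + x ^ 2)) x := by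
    have h1 : HasDerivAt (fun x : ℝ => 1 + x ^ 2 / δ ^ 2) (2 * x / δ ^ 2) x := by
      have := ((hasDerivAt_pow 2 x).div_const (δ ^ 2)).const_add 1
      simpa using this
    have h2 : (1 + x ^ 2 / δ ^ 2) ≠ 0 := by positivity
    have h3 := (h1.log h2).const_add 8
    refine h3.congr_deriv ?_
    field_simp
  have hpos : LL δ x ≠ 0 := by have := LL_ge δ x; linarith
  have hn : HasDerivAt (fun x : ℝ => -x) (-1) x := hasDerivAt_neg x
  have h := hn.div hL hpos
  refine h.congr_deriv ?_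
  unfold GG'
  have : δ ^ 2 + x ^ 2 ≠ 0 := by positivity
  field_simp
  ring

/-- The pointwise inequality. -/
lemma pointwise {κ V x p y a : ℝ} (hκ : 0 < κ) (hκ1 : κ ≤ 1 / 20) (hV : V = κ ^ 2)
    (hx : |x| ≤ 1) (hp : |p| ≤ 1) (ha : |a| ≤ 1) :
    -12 * Real.exp (-(1 / (8 * κ))) ^ 2 ≤ (x * p + y / 2) ^ 2 - V * y ^ 2 +
      (GG' (Real.exp (-(1 / (8 * κ)))) x * a * y ^ 2 +
        GG (Real.exp (-(1 / (8 * κ)))) x * (2 * y * p)) := by
  set δ := Real.exp (-(1 / (8 * κ))) with hδdef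
  have hδ : 0 < δ := Real.exp_pos _
  have hδ1 : δ ≤ 1 := by
    rw [hδdef]; apply Real.exp_le_one_iff.2
    have : 0 < 1 / (8 * κ) := by positivity
    linarith
  have hL := LL_ge δ x
  set η := 1 / LL δ x with hη
  have hη0 : 0 < η := by positivity
  have hη8 : η ≤ 1 / 8 := by
    rw [hη]; exact one_div_le_one_div_of_le (by norm_num) hL
  set ρ := x ^ 2 / (δ ^ 2 + x ^ 2) with hρ
  have hρ0 : 0 ≤ ρ := by positivity
  have hρ1 : ρ ≤ 1 := by
    rw [hρ, div_le_one (by positivity)]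
    nlinarith
  have hG : GG δ x = -(η * x) := by unfold GG; rw [hη]; ring
  have hG' : GG' δ x = -η + 2 * ρ * η ^ 2 := by unfold GG'; rw [hη, hρ]
  have hG'0 : GG' δ x ≤ 0 := by
    rw [hG']
    nlinarith [mul_nonneg (sub_nonneg.2 hρ1) (sq_nonneg η)]
  have hG'1 : -(1 / 8) ≤ GG' δ x := by
    rw [hG']
    nlinarith [mul_nonneg hρ0 (sq_nonneg η)]
  obtain ⟨ha1, ha2⟩ := abs_le.1 ha
  have hVpos : 0 < V := by rw [hV]; positivity
  have hV4 : V ≤ 1 / 400 := by rw [hV]; nlinarith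
  -- complete the square
  have hsq : (x * p + y / 2) ^ 2 - V * y ^ 2 + (GG' δ x * a * y ^ 2 + GG δ x * (2 * y * p)) =
      (x * p + (1 / 2 - η) * y) ^ 2 + (GG' δ x * a + η - η ^ 2 - V) * y ^ 2 := by
    rw [hG]; ring
  by_cases hcase : 3 / 4 ≤ ρ
  · have h1 : GG' δ x ≤ GG' δ x * a := by nlinarith
    have hLκ : LL δ x ≤ 7 / 10 / κ := by
      have hx2 : x ^ 2 ≤ 1 := by
        rw [← sq_abs]; nlinarith [abs_nonneg x]
      have h2 : 1 + x ^ 2 / δ ^ 2 ≤ 2 / δ ^ 2 := by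
        rw [le_div_iff₀ (by positivity)]
        have : (1 + x ^ 2 / δ ^ 2) * δ ^ 2 = δ ^ 2 + x ^ 2 := by field_simp
        rw [this]
        nlinarith
      have h3 : Real.log (1 + x ^ 2 / δ ^ 2) ≤ Real.log 2 + 1 / (4 * κ) := by
        refine (Real.log_le_log (by positivity) h2).trans ?_
        rw [Real.log_div (by norm_num) (by positivity), Real.log_pow, hδdef, Real.log_exp]
        have : (2 : ℕ) * -(1 / (8 * κ)) = -(1 / (4 * κ)) := by
          push_cast; field_simp; ring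
        rw [this]
        linarith
      have h4 : Real.log 2 ≤ 1 := by
        have := Real.log_two_lt_d9; linarith
      have h5 : LL δ x ≤ 9 + 1 / (4 * κ) := by unfold LL; linarith
      refine h5.trans ?_
      rw [le_div_iff₀ hκ]
      have : (9 + 1 / (4 * κ)) * κ = 9 * κ + 1 / 4 := by field_simp
      rw [this]
      linarith
    have h6 : 10 / 7 * κ ≤ η := by
      rw [hη, le_div_iff₀ (by linarith)]
      calc 10 / 7 * κ * LL δ x ≤ 10 / 7 * κ * (7 / 10 / κ) := by gcongr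
        _ = 1 := by field_simp
    have h7 : 2 * V ≤ η ^ 2 := by
      rw [hV]; nlinarith
    have h8 : 0 ≤ GG' δ x * a + η - η ^ 2 - V := by
      have : GG' δ x + η - η ^ 2 - V ≤ GG' δ x * a + η - η ^ 2 - V := by linarith
      refine le_trans ?_ this
      rw [hG']
      nlinarith [sq_nonneg η]
    rw [hsq]
    have h9 : 0 ≤ (GG' δ x * a + η - η ^ 2 - V) * y ^ 2 := by positivity
    have h10 : 0 ≤ δ ^ 2 := by positivity
    nlinarith [sq_nonneg (x * p + (1 / 2 - η) * y)]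
  · push Not at hcase
    have hx3 : x ^ 2 ≤ 3 * δ ^ 2 := by
      rw [hρ, div_lt_iff₀ (by positivity)] at hcase
      nlinarith
    have hp2 : p ^ 2 ≤ 1 := by
      rw [← sq_abs]; nlinarith [abs_nonneg p]
    have hu : (x * p) ^ 2 ≤ 3 * δ ^ 2 := by
      rw [mul_pow]
      nlinarith [sq_nonneg x]
    have hGa : -(1 / 8) ≤ GG' δ x * a := by nlinarith
    have hexp : (x * p + y / 2) ^ 2 - V * y ^ 2 + (GG' δ x * a * y ^ 2 + GG δ x * (2 * y * p)) =
        (x * p) ^ 2 + (1 - 2 * η) * (x * p) * y + (1 / 4 - V + GG' δ x * a) * y ^ 2 := by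
      rw [hG]; ring
    rw [hexp]
    have h1 : 0 ≤ (1 / 4 - V + GG' δ x * a - 3 / 25) * y ^ 2 := by
      apply mul_nonneg _ (sq_nonneg y)
      linarith
    have h2 : 0 ≤ 3 * (x * p) ^ 2 + (1 - 2 * η) * (x * p) * y + 3 / 25 * y ^ 2 := by
      have hc0 : 0 ≤ 1 - 2 * η := by linarith
      have hc1 : 1 - 2 * η ≤ 1 := by linarith
      have hc2 : (1 - 2 * η) ^ 2 ≤ 1 := by nlinarith
      nlinarith [sq_nonneg (y + 25 / 6 * (1 - 2 * η) * (x * p)), sq_nonneg (x * p),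
        mul_nonneg (sub_nonneg.2 hc2) (sq_nonneg (x * p))]
    nlinarith

end

/-! STLCLower -/

noncomputable section

lemma exists_threshold (m : ℕ) : ∃ T₀ : ℝ, 0 < T₀ ∧ T₀ ≤ 1 / 400 ∧ ∀ V, 0 < V → V ≤ T₀ →
    12 * Real.exp (-(1 / (8 * √V))) ^ 2 ≤ (V / 2) ^ (2 * m + 1) := by
  have h := Real.tendsto_pow_mul_exp_neg_atTop_nhds_zero (2 * (2 * m + 1))
  have hc : (0 : ℝ) < 1 / (12 * 32 ^ (2 * m + 1)) := by positivity
  have hev := (h.eventually (ge_mem_nhds hc)).and (eventually_ge_atTop (1 : ℝ))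
  obtain ⟨x₀, hx₀⟩ := eventually_atTop.1 hev
  set x₁ := max x₀ 1 with hx₁
  have hx₁1 : 1 ≤ x₁ := le_max_right _ _
  refine ⟨min (1 / 400) (1 / (16 * x₁ ^ 2)), by positivity, min_le_left _ _, ?_⟩
  intro V hV hVT
  have hV2 : V ≤ 1 / (16 * x₁ ^ 2) := hVT.trans (min_le_right _ _)
  set κ := √V with hκ
  have hκpos : 0 < κ := Real.sqrt_pos.2 hV
  have hκ2 : κ ^ 2 = V := Real.sq_sqrt hV.le
  set x := 1 / (4 * κ) with hx
  have hxpos : 0 < x := by positivity
  have hκle : κ ≤ 1 / (4 * x₁) := by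
    apply Real.sqrt_le_iff.2
    refine ⟨by positivity, ?_⟩
    calc V ≤ 1 / (16 * x₁ ^ 2) := hV2
      _ = (1 / (4 * x₁)) ^ 2 := by field_simp; ring
  have hx1 : x₁ ≤ x := by
    rw [hx, le_div_iff₀ (by positivity)]
    rw [le_div_iff₀ (by positivity)] at hκle
    linarith
  have h1 := (hx₀ x ((le_max_left _ _).trans hx1)).1
  have h2 : Real.exp (-(1 / (8 * κ))) ^ 2 = Real.exp (-x) := by
    rw [← Real.exp_nat_mul]
    congr 1
    rw [hx]; push_cast; field_simp; ring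
  have h3 : V / 2 = 1 / (32 * x ^ 2) := by
    rw [hx, ← hκ2]; field_simp; ring
  rw [h2, h3]
  have h4 : (1 / (32 * x ^ 2)) ^ (2 * m + 1) = 1 / (32 ^ (2 * m + 1) * x ^ (2 * (2 * m + 1))) := by
    rw [div_pow, one_pow, mul_pow, ← pow_mul]
  rw [h4, le_div_iff₀ (by positivity)]
  have h5 : x ^ (2 * (2 * m + 1)) * Real.exp (-x) * (12 * 32 ^ (2 * m + 1)) ≤ 1 := by
    rw [← le_div_iff₀ (by positivity)]
    exact h1
  calc 12 * Real.exp (-x) * (32 ^ (2 * m + 1) * x ^ (2 * (2 * m + 1))) =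
      x ^ (2 * (2 * m + 1)) * Real.exp (-x) * (12 * 32 ^ (2 * m + 1)) := by ring
    _ ≤ 1 := h5

/-- the flat lower bound: the final height is at least `-T ^ (2 m + 1)`. -/
lemma end_lower {m : ℕ} {T₀ : ℝ} (hT₀ : T₀ ≤ 1 / 400)
    (hthr : ∀ V, 0 < V → V ≤ T₀ → 12 * Real.exp (-(1 / (8 * √V))) ^ 2 ≤ (V / 2) ^ (2 * m + 1))
    {T : ℝ} (hT : 0 < T) (hTT : T < T₀) {x p v y z : ℝ → ℝ}
    (hxc : ContinuousOn x (Icc 0 T)) (hpc : ContinuousOn p (Icc 0 T))
    (hvc : ContinuousOn v (Icc 0 T)) (hyc : ContinuousOn y (Icc 0 T))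
    (hzc : ContinuousOn z (Icc 0 T)) (hx0 : x 0 = 0) (hp0 : p 0 = 0) (hv0 : v 0 = 0)
    (hy0 : y 0 = 0) (hz0 : z 0 = 0)
    (hd : ∀ s ∈ Ico 0 T, ∃ a b c, |a| ≤ 1 ∧ |b| ≤ 1 ∧ |c| ≤ 1 ∧
      HasDerivWithinAt x a (Ici s) s ∧ HasDerivWithinAt p b (Ici s) s ∧
      HasDerivWithinAt v c (Ici s) s ∧ HasDerivWithinAt y (p s) (Ici s) s ∧
      HasDerivWithinAt z ((x s * p s + y s / 2) ^ 2 - v s * y s ^ 2) (Ici s) s)
    (hxT : x T = 0) : - T ^ (2 * m + 1) ≤ z T := by
  -- elementary bounds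
  have hxb : ∀ s ∈ Icc 0 T, |x s| ≤ s := by
    intro s hs
    have := abs_le_of_right_deriv (C := 1) hxc (fun s hs => by
      obtain ⟨a, b, c, ha, hb, hc, h1, h2, h3, h4, h5⟩ := hd s hs
      exact ⟨a, ha, h1⟩) s hs
    simpa [hx0] using this
  have hpb : ∀ s ∈ Icc 0 T, |p s| ≤ s := by
    intro s hs
    have := abs_le_of_right_deriv (C := 1) hpc (fun s hs => by
      obtain ⟨a, b, c, ha, hb, hc, h1, h2, h3, h4, h5⟩ := hd s hs
      exact ⟨b, hb, h2⟩) s hs
    simpa [hp0] using this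
  have hvb : ∀ s ∈ Icc 0 T, |v s| ≤ s := by
    intro s hs
    have := abs_le_of_right_deriv (C := 1) hvc (fun s hs => by
      obtain ⟨a, b, c, ha, hb, hc, h1, h2, h3, h4, h5⟩ := hd s hs
      exact ⟨c, hc, h3⟩) s hs
    simpa [hv0] using this
  -- with the constant `V = T`
  obtain ⟨V, hVdef⟩ : ∃ V, V = T := ⟨T, rfl⟩
  have hVmax : ∀ s ∈ Icc 0 T, |v s| ≤ V := fun s hs => by
    rw [hVdef]; exact (hvb s hs).trans hs.2
  have hVpos : 0 < V := by rw [hVdef]; exact hT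
  have hVT₀ : V ≤ T₀ := by rw [hVdef]; exact hTT.le
  have hsmall := hthr V hVpos hVT₀
  set κ := √V with hκ
  have hκpos : 0 < κ := Real.sqrt_pos.2 hVpos
  have hκ2 : V = κ ^ 2 := (Real.sq_sqrt hVpos.le).symm
  have hκ1 : κ ≤ 1 / 20 := by
    apply Real.sqrt_le_iff.2
    exact ⟨by norm_num, by norm_num; linarith⟩
  set δ := Real.exp (-(1 / (8 * κ))) with hδ
  have hδpos : 0 < δ := Real.exp_pos _
  let Ψ : ℝ → ℝ := fun s => z s + GG δ (x s) * y s ^ 2
  have hGc : Continuous (GG δ) :=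
    continuous_iff_continuousAt.2 fun u => (hasDerivAt_GG hδpos u).continuousAt
  have hΨc : ContinuousOn Ψ (Icc 0 T) :=
    hzc.add ((hGc.comp_continuousOn hxc).mul (hyc.pow 2))
  have hΨd : ∀ s ∈ Ico 0 T, ∃ d, -12 * δ ^ 2 ≤ d ∧
      HasDerivWithinAt Ψ d (Ici s) s := by
    intro s hs
    have hsI := Ico_subset_Icc_self hs
    obtain ⟨a, b, c, ha, hb, hc, h1, h2, h3, h4, h5⟩ := hd s hs
    have hG := (hasDerivAt_GG hδpos (x s)).comp_hasDerivWithinAt s h1
    have hy2 := h4.pow 2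
    refine ⟨_, ?_, h5.add (hG.mul hy2)⟩
    have hx1 : |x s| ≤ 1 := by have := hxb s hsI; linarith [hs.2]
    have hp1 : |p s| ≤ 1 := by have := hpb s hsI; linarith [hs.2]
    have hpt := pointwise (y := y s) hκpos hκ1 hκ2 hx1 hp1 ha
    have hvV : v s * y s ^ 2 ≤ V * y s ^ 2 := by
      have : v s ≤ V := (le_abs_self _).trans (hVmax s hsI)
      gcongr
    simp only [Function.comp_apply] at *
    have e : GG' δ (x s) * a * y s ^ 2 + GG δ (x s) * (((2 : ℕ) : ℝ) * y s ^ (2 - 1) * p s) =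
        GG' δ (x s) * a * y s ^ 2 + GG δ (x s) * (2 * y s * p s) := by
      norm_num
    rw [e]
    linarith
  have hΨ0 : Ψ 0 = 0 := by simp [Ψ, hz0, hy0]
  have hΨT : Ψ T = z T := by simp [Ψ, hxT, GG]
  have hI := le_of_right_deriv (C := -12 * δ ^ 2) hT.le hΨc hΨd
  rw [hΨT, hΨ0] at hI
  have h1 : (T / 2) ^ (2 * m + 1) ≤ T ^ (2 * m + 1) :=
    pow_le_pow_left₀ (by linarith) (by linarith) _
  rw [hVdef] at hsmall
  have h2 : 12 * δ ^ 2 ≤ T ^ (2 * m + 1) := by
    exact hsmall.trans h1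
  have h3 : 0 ≤ 12 * δ ^ 2 := by positivity
  nlinarith


end

/-! STLCField -/

noncomputable section

/-- The eight values of the control `(x', p', v')`. -/
def ctl : Fin 8 → ℝ × ℝ × ℝ :=
  ![(1, 0, 0), (-1, 0, 0), (0, 1, 0), (0, -1, 0), (0, 0, 1), (0, 0, -1), (1, 1, 0), (1, -1, 0)]

/-- The vector fields; the coordinates are `x, p, v, y, z`. -/
def fld (e : ℝ) (m : ℕ) (i : Fin 8) (q : E 5) : E 5 :=
  !₂[(ctl i).1, (ctl i).2.1, (ctl i).2.2, q 1,
    (q 0 * q 1 + q 3 / 2) ^ 2 - q 2 * q 3 ^ 2 + e * q 2 ^ (2 * m)]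

lemma ctl_bound (i : Fin 8) : |(ctl i).1| ≤ 1 ∧ |(ctl i).2.1| ≤ 1 ∧ |(ctl i).2.2| ≤ 1 := by
  fin_cases i <;> simp [ctl]

lemma comp_deriv {q : ℝ → E 5} {w : E 5} {S : Set ℝ} {s : ℝ} (h : HasDerivWithinAt q w S s)
    (j : Fin 5) : HasDerivWithinAt (fun u => q u j) (w j) S s :=
  ((EuclideanSpace.proj j : E 5 →L[ℝ] ℝ).hasFDerivAt.comp_hasDerivWithinAt s h)

lemma comp_cont {q : ℝ → E 5} {S : Set ℝ} (h : ContinuousOn q S) (j : Fin 5) :
    ContinuousOn (fun u => q u j) S :=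
  (EuclideanSpace.proj j : E 5 →L[ℝ] ℝ).continuous.comp_continuousOn h

lemma reachable_lower {m : ℕ} {T₀ t : ℝ} (hT₀ : T₀ ≤ 1 / 400)
    (hthr : ∀ V, 0 < V → V ≤ T₀ → 12 * Real.exp (-(1 / (8 * √V))) ^ 2 ≤ (V / 2) ^ (2 * m + 1))
    (ht : t ≤ T₀) {w : E 5} (hw : w ∈ Attainable (fld 0 0) t) (hw0 : w 0 = 0) :
    - t ^ (2 * m + 1) < w 4 := by
  obtain ⟨N, hN⟩ := hw
  obtain ⟨T, hT, hTT, q, hqc, hq0, hqT, hqd⟩ := glue hN
  have := end_lower (m := m) hT₀ hthr hT (hTT.trans_le ht) (x := fun s => q s 0)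
    (p := fun s => q s 1) (v := fun s => q s 2) (y := fun s => q s 3) (z := fun s => q s 4)
    (comp_cont hqc 0) (comp_cont hqc 1) (comp_cont hqc 2) (comp_cont hqc 3) (comp_cont hqc 4)
    (by simp [hq0]) (by simp [hq0]) (by simp [hq0]) (by simp [hq0]) (by simp [hq0])
    (fun s hs => by
      obtain ⟨i, hi⟩ := hqd s hs
      obtain ⟨hb1, hb2, hb3⟩ := ctl_bound i
      refine ⟨(ctl i).1, (ctl i).2.1, (ctl i).2.2, hb1, hb2, hb3, ?_, ?_, ?_, ?_, ?_⟩
      · exact comp_deriv hi 0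
      · exact comp_deriv hi 1
      · exact comp_deriv hi 2
      · exact comp_deriv hi 3
      · have := comp_deriv hi 4
        simpa [fld] using this)
    (by simp [hqT, hw0])
  have h2 : T ^ (2 * m + 1) < t ^ (2 * m + 1) := pow_lt_pow_left₀ hTT hT.le (by omega)
  have h3 : - T ^ (2 * m + 1) ≤ w 4 := by simpa [hqT] using this
  linarith


end

/-! STLCConn -/

noncomputable section

/-- `Conn f a T b`: the point `b` is reached from `a` in time exactly `T`. -/
inductive Conn {n k : ℕ} (f : Fin k → E n → E n) (a : E n) : ℝ → E n → Prop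
  | refl : Conn f a 0 a
  | step {T θ : ℝ} {b : E n} (h : Conn f a T b) (hθ : 0 < θ) (i : Fin k) (η : ℝ → E n)
      (h0 : η 0 = b)
      (hd : ∀ s ∈ Icc 0 θ, HasDerivWithinAt η (f i (η s)) (Icc 0 θ) s) : Conn f a (T + θ) (η θ)

/-- a nonempty concatenation gives a reachable point. -/
lemma Conn.exists_data {n k : ℕ} {f : Fin k → E n → E n} {T : ℝ} {b : E n}
    (h : Conn f 0 T b) : (T = 0 ∧ b = 0) ∨ ∃ (N : ℕ) (τ : ℕ → ℝ) (i : ℕ → Fin k) (ξ : ℕ → ℝ → E n),
    τ 0 = 0 ∧ (∀ j ≤ N, τ j < τ (j + 1)) ∧ τ (N + 1) = T ∧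
    (∀ j ≤ N, ∀ s ∈ Icc (τ j) (τ (j + 1)),
      HasDerivWithinAt (ξ j) (f (i j) (ξ j s)) (Icc (τ j) (τ (j + 1))) s) ∧
    ξ 0 0 = 0 ∧ (∀ j < N, ξ j (τ (j + 1)) = ξ (j + 1) (τ (j + 1))) ∧ ξ N (τ (N + 1)) = b := by
  induction h with
  | refl => left; exact ⟨rfl, rfl⟩
  | @step T θ b h hθ i η h0 hd ih =>
    right
    rcases ih with ⟨hT, hb⟩ | ⟨N, τ, l, ξ, hτ0, hτ, hT, hξ, hξ0, hm, hb⟩
    · subst hT
      refine ⟨0, fun j => if j = 0 then 0 else θ, fun _ => i, fun _ => η, ?_, ?_, ?_, ?_, ?_, ?_, ?_⟩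
      · simp
      · intro j hj
        have : j = 0 := by omega
        subst this
        simpa using hθ
      · simp
      · intro j hj
        have : j = 0 := by omega
        subst this
        simpa using hd
      · change η 0 = 0
        rw [h0, hb]
      · intro j hj; omega
      · simp
    · refine ⟨N + 1, fun j => if j ≤ N + 1 then τ j else T + θ, fun j => if j ≤ N then l j else i,
        fun j => if j ≤ N then ξ j else fun s => η (s - T), ?_, ?_, ?_, ?_, ?_, ?_, ?_⟩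
      · simp [hτ0]
      · intro j hj
        rcases hj.lt_or_eq with h | h
        · have h1 : j ≤ N + 1 := hj
          have h2 : j + 1 ≤ N + 1 := by omega
          simp only [h1, h2, if_true]
          exact hτ j (by omega)
        · subst h
          have h2 : ¬ (N + 1 + 1 ≤ N + 1) := by omega
          simp only [le_refl, h2, if_true, if_false, hT]
          linarith
      · simp
      · intro j hj
        rcases hj.lt_or_eq with h | h
        · have h0 : j ≤ N := by omega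
          have h1 : j ≤ N + 1 := hj
          have h2 : j + 1 ≤ N + 1 := by omega
          simp only [h0, h1, h2, if_true]
          exact hξ j h0
        · subst h
          have h2 : ¬ (N + 1 + 1 ≤ N + 1) := by omega
          have h3 : ¬ (N + 1 ≤ N) := by omega
          simp only [le_refl, h2, h3, if_true, if_false, hT]
          intro s hs
          have h4 := hd (s - T) ⟨by linarith [hs.1], by linarith [hs.2]⟩
          have h5 : HasDerivWithinAt (fun s : ℝ => s - T) 1 (Icc T (T + θ)) s :=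
            ((hasDerivAt_id s).sub_const T).hasDerivWithinAt
          have h6 : MapsTo (fun s : ℝ => s - T) (Icc T (T + θ)) (Icc 0 θ) := by
            intro u hu
            exact ⟨by linarith [hu.1], by linarith [hu.2]⟩
          have h7 := h4.scomp s h5 h6
          rw [one_smul] at h7
          exact h7
      · have h0 : (0 : ℕ) ≤ N := by omega
        simp only [h0, if_true, hξ0]
      · intro j hj
        rcases (Nat.lt_succ_iff.1 hj).lt_or_eq with h | h
        · have e1 : j ≤ N := by omega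
          have e2 : j + 1 ≤ N := by omega
          have e3 : j + 1 ≤ N + 1 := by omega
          simp only [e1, e2, e3, if_true]
          exact hm j h
        · subst h
          have e2 : ¬ (j + 1 ≤ j) := by omega
          simp only [le_refl, e2, if_true, if_false, hT, sub_self]
          rw [h0, ← hb, hT]
      · have e2 : ¬ (N + 1 + 1 ≤ N + 1) := by omega
        have e3 : ¬ (N + 1 ≤ N) := by omega
        simp only [e2, e3, if_false]
        congr 1
        ring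

lemma Conn.mem_attainable {n k : ℕ} {f : Fin k → E n → E n} {T t : ℝ} {b : E n}
    (h : Conn f 0 T b) (hT : 0 < T) (hTt : T < t) : b ∈ Attainable f t := by
  rcases h.exists_data with ⟨h0, -⟩ | ⟨N, τ, i, ξ, h1, h2, h3, h4, h5, h6, h7⟩
  · exact absurd h0 hT.ne'
  · exact ⟨N, τ, i, ξ, h1, h2, by rw [h3]; exact hTt, h4, h5, h6, h7⟩

/-- the running cost. -/
def H (x p v y : ℝ) : ℝ := (x * p + y / 2) ^ 2 - v * y ^ 2

/-- the unperturbed family. -/
def f0 : Fin 8 → E 5 → E 5 := fld 0 0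

/-- a state. -/
def st (x p v y z : ℝ) : E 5 := !₂[x, p, v, y, z]

/-- cost of a single control. -/
def fc (A B C x p v y θ : ℝ) : ℝ :=
  ∫ s in (0 : ℝ)..θ, H (x + A * s) (p + B * s) (v + C * s) (y + p * s + B * s ^ 2 / 2)

lemma continuous_H_flow (A B C x p v y : ℝ) : Continuous (fun s : ℝ =>
    H (x + A * s) (p + B * s) (v + C * s) (y + p * s + B * s ^ 2 / 2)) := by
  unfold H; fun_prop

lemma flow_deriv (i : Fin 8) (x p v y z s : ℝ) {S : Set ℝ} :
    HasDerivWithinAt (fun s => st (x + (ctl i).1 * s) (p + (ctl i).2.1 * s) (v + (ctl i).2.2 * s)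
      (y + p * s + (ctl i).2.1 * s ^ 2 / 2)
      (z + fc (ctl i).1 (ctl i).2.1 (ctl i).2.2 x p v y s))
    (f0 i (st (x + (ctl i).1 * s) (p + (ctl i).2.1 * s) (v + (ctl i).2.2 * s)
      (y + p * s + (ctl i).2.1 * s ^ 2 / 2)
      (z + fc (ctl i).1 (ctl i).2.1 (ctl i).2.2 x p v y s))) S s := by
  rw [hasDerivWithinAt_iff_hasFDerivWithinAt, hasFDerivWithinAt_euclidean]
  intro j
  have hlin : ∀ (a b : ℝ), HasDerivAt (fun s : ℝ => a + b * s) b s := by
    intro a b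
    have := ((hasDerivAt_id s).const_mul b).const_add a
    simpa using this
  fin_cases j
  · refine ((hlin x (ctl i).1).hasDerivWithinAt.hasFDerivWithinAt).congr_fderiv ?_
    ext; simp [f0, fld]
  · refine ((hlin p (ctl i).2.1).hasDerivWithinAt.hasFDerivWithinAt).congr_fderiv ?_
    ext; simp [f0, fld]
  · refine ((hlin v (ctl i).2.2).hasDerivWithinAt.hasFDerivWithinAt).congr_fderiv ?_
    ext; simp [f0, fld]
  · have h1 : HasDerivAt (fun s : ℝ => y + p * s + (ctl i).2.1 * s ^ 2 / 2)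
        (p + (ctl i).2.1 * s) s := by
      have h2 := ((hlin y p).add ((((hasDerivAt_pow 2 s).const_mul (ctl i).2.1)).div_const 2))
      refine h2.congr_deriv ?_
      push_cast; ring
    refine (h1.hasDerivWithinAt.hasFDerivWithinAt).congr_fderiv ?_
    ext; simp [f0, fld, st]
  · have h1 : HasDerivAt (fun s => fc (ctl i).1 (ctl i).2.1 (ctl i).2.2 x p v y s)
        (H (x + (ctl i).1 * s) (p + (ctl i).2.1 * s) (v + (ctl i).2.2 * s)
          (y + p * s + (ctl i).2.1 * s ^ 2 / 2)) s :=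
      (continuous_H_flow _ _ _ x p v y).integral_hasStrictDerivAt 0 s |>.hasDerivAt
    refine ((h1.const_add z).hasDerivWithinAt.hasFDerivWithinAt).congr_fderiv ?_
    ext; simp [f0, fld, st, H]

/-- Applying one control during time `θ ≥ 0`. -/
lemma Conn.ctl {a : E 5} {T x p v y z : ℝ} (h : Conn f0 a T (st x p v y z)) (i : Fin 8) {θ : ℝ}
    (hθ : 0 ≤ θ) : Conn f0 a (T + θ) (st (x + (ctl i).1 * θ) (p + (ctl i).2.1 * θ)
      (v + (ctl i).2.2 * θ) (y + p * θ + (ctl i).2.1 * θ ^ 2 / 2)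
      (z + fc (ctl i).1 (ctl i).2.1 (ctl i).2.2 x p v y θ)) := by
  rcases hθ.eq_or_lt with h0 | h0
  · subst h0
    simpa [fc] using h
  · exact h.step h0 i (fun s => st (x + (FlatReach.ctl i).1 * s) (p + (FlatReach.ctl i).2.1 * s)
      (v + (FlatReach.ctl i).2.2 * s) (y + p * s + (FlatReach.ctl i).2.1 * s ^ 2 / 2)
      (z + fc (FlatReach.ctl i).1 (FlatReach.ctl i).2.1 (FlatReach.ctl i).2.2 x p v y s)) (by simp [fc])
      (fun s _ => flow_deriv i x p v y z s)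

end

/-! STLCMoves -/

noncomputable section

/-- A motion of duration `T` from the state `(x, p, v, y)` to the state `(x', p', v', y')` which
changes the coordinate `z` by `c`. -/
def Mv (T x p v y x' p' v' y' c : ℝ) : Prop :=
  ∀ (a : E 5) (S z : ℝ), Conn f0 a S (st x p v y z) → Conn f0 a (S + T) (st x' p' v' y' (z + c))

lemma Mv.trans {T₁ T₂ x p v y x' p' v' y' x'' p'' v'' y'' c₁ c₂ : ℝ}
    (h₁ : Mv T₁ x p v y x' p' v' y' c₁) (h₂ : Mv T₂ x' p' v' y' x'' p'' v'' y'' c₂) :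
    Mv (T₁ + T₂) x p v y x'' p'' v'' y'' (c₁ + c₂) := by
  intro a S z h
  have := h₂ a _ _ (h₁ a S z h)
  rwa [add_assoc, add_assoc] at this

lemma Mv.congr {T x p v y x' p' v' y' c T₂ x₂ p₂ v₂ y₂ c₂ : ℝ}
    (h : Mv T x p v y x' p' v' y' c) (hT : T = T₂) (hx : x' = x₂) (hp : p' = p₂) (hv : v' = v₂)
    (hy : y' = y₂) (hc : c = c₂) : Mv T₂ x p v y x₂ p₂ v₂ y₂ c₂ := by
  subst hT hx hp hv hy hc
  exact h

lemma Mv.single (i : Fin 8) (x p v y : ℝ) {θ : ℝ} (hθ : 0 ≤ θ) :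
    Mv θ x p v y (x + (ctl i).1 * θ) (p + (ctl i).2.1 * θ) (v + (ctl i).2.2 * θ)
      (y + p * θ + (ctl i).2.1 * θ ^ 2 / 2)
      (fc (ctl i).1 (ctl i).2.1 (ctl i).2.2 x p v y θ) :=
  fun _ _ _ h => h.ctl i hθ

lemma abs_H_le {x p v y : ℝ} (hx : |x| ≤ 1) (hp : |p| ≤ 1) (hv : |v| ≤ 1) (hy : |y| ≤ 1) :
    |H x p v y| ≤ 4 := by
  unfold H
  have h1 : |x * p| ≤ 1 := by
    rw [abs_mul]; exact mul_le_one₀ hx (abs_nonneg _) hp
  obtain ⟨h1a, h1b⟩ := abs_le.1 h1
  obtain ⟨h2a, h2b⟩ := abs_le.1 hy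
  obtain ⟨h3a, h3b⟩ := abs_le.1 hv
  have hy2 : y ^ 2 ≤ 1 := by nlinarith
  have hy0 : 0 ≤ y ^ 2 := sq_nonneg y
  have h4 : |v * y ^ 2| ≤ 1 := by
    rw [abs_mul, abs_of_nonneg hy0]
    exact mul_le_one₀ hv hy0 hy2
  obtain ⟨h4a, h4b⟩ := abs_le.1 h4
  have h5 : (x * p + y / 2) ^ 2 ≤ 3 := by nlinarith
  have h6 : 0 ≤ (x * p + y / 2) ^ 2 := sq_nonneg _
  rw [abs_le]
  constructor <;> linarith

lemma abs_fc_le {A B C x p v y θ K : ℝ} (hθ : 0 ≤ θ)
    (h : ∀ s ∈ Icc 0 θ, |H (x + A * s) (p + B * s) (v + C * s) (y + p * s + B * s ^ 2 / 2)| ≤ K) :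
    |fc A B C x p v y θ| ≤ K * θ := by
  have := intervalIntegral.norm_integral_le_of_norm_le_const (a := 0) (b := θ) (C := K)
    (f := fun s => H (x + A * s) (p + B * s) (v + C * s) (y + p * s + B * s ^ 2 / 2)) (by
      intro s hs
      rw [uIoc_of_le hθ] at hs
      exact h s (Ioc_subset_Icc_self hs))
  rw [sub_zero, abs_of_nonneg hθ] at this
  exact this

lemma fc_zero_of_H {A B C x p v y θ : ℝ}
    (h : ∀ s, H (x + A * s) (p + B * s) (v + C * s) (y + p * s + B * s ^ 2 / 2) = 0) :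
    fc A B C x p v y θ = 0 := by
  unfold fc
  simp [h]

lemma xmove (x x' v : ℝ) : Mv |x' - x| x 0 v 0 x' 0 v 0 0 := by
  rcases le_total x x' with h | h
  · have h1 := Mv.single 0 x 0 v 0 (θ := x' - x) (by linarith)
    refine h1.congr ?_ ?_ ?_ ?_ ?_ ?_
    · rw [abs_of_nonneg (by linarith)]
    · simp [ctl]
    · simp [ctl]
    · simp [ctl]
    · simp [ctl]
    · apply fc_zero_of_H; intro s; simp [ctl, H]
  · have h1 := Mv.single 1 x 0 v 0 (θ := x - x') (by linarith)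
    refine h1.congr ?_ ?_ ?_ ?_ ?_ ?_
    · rw [abs_of_nonpos (by linarith)]; ring
    · simp [ctl]
    · simp [ctl]
    · simp [ctl]
    · simp [ctl]
    · apply fc_zero_of_H; intro s; simp [ctl, H]

lemma vmove (x v v' : ℝ) : Mv |v' - v| x 0 v 0 x 0 v' 0 0 := by
  rcases le_total v v' with h | h
  · have h1 := Mv.single 4 x 0 v 0 (θ := v' - v) (by linarith)
    refine h1.congr ?_ ?_ ?_ ?_ ?_ ?_
    · rw [abs_of_nonneg (by linarith)]
    · simp [ctl]
    · simp [ctl]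
    · simp [ctl]
    · simp [ctl]
    · apply fc_zero_of_H; intro s; simp [ctl, H]
  · have h1 := Mv.single 5 x 0 v 0 (θ := v - v') (by linarith)
    refine h1.congr ?_ ?_ ?_ ?_ ?_ ?_
    · rw [abs_of_nonpos (by linarith)]; ring
    · simp [ctl]
    · simp [ctl]
    · simp [ctl]
    · simp [ctl]
    · apply fc_zero_of_H; intro s; simp [ctl, H]

lemma pmove {x v y p₁ : ℝ} (hx : |x| ≤ 1) (hv : |v| ≤ 1) (hy : |y| ≤ 1 / 2) (hp : |p₁| ≤ 1 / 2) :
    ∃ c, |c| ≤ 4 * |p₁| ∧ Mv |p₁| x 0 v y x p₁ v (y + p₁ * |p₁| / 2) c := by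
  obtain ⟨hy1, hy2⟩ := abs_le.1 hy
  rcases le_total 0 p₁ with h | h
  · have h1 := Mv.single 2 x 0 v y h
    rw [abs_of_nonneg h] at hp ⊢
    refine ⟨_, ?_, h1.congr rfl ?_ ?_ ?_ ?_ rfl⟩
    · apply abs_fc_le h
      intro s hs
      apply abs_H_le
      · simpa [ctl] using hx
      · simp only [ctl]
        rw [abs_le]
        simp
        constructor <;> linarith [hs.1, hs.2]
      · simpa [ctl] using hv
      · simp only [ctl]
        rw [abs_le]
        simp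
        constructor <;> nlinarith [hs.1, hs.2]
    · simp [ctl]
    · simp [ctl]
    · simp [ctl]
    · simp [ctl]; ring
  · have h1 := Mv.single 3 x 0 v y (θ := -p₁) (by linarith)
    rw [abs_of_nonpos h] at hp ⊢
    refine ⟨_, ?_, h1.congr rfl ?_ ?_ ?_ ?_ rfl⟩
    · apply abs_fc_le (by linarith)
      intro s hs
      apply abs_H_le
      · simpa [ctl] using hx
      · simp only [ctl]
        rw [abs_le]
        simp
        constructor <;> linarith [hs.1, hs.2]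
      · simpa [ctl] using hv
      · simp only [ctl]
        rw [abs_le]
        simp
        constructor <;> nlinarith [hs.1, hs.2]
    · simp [ctl]
    · simp [ctl]
    · simp [ctl]
    · simp [ctl]; ring

/-- back to `p = 0` from `p = a`. -/
lemma pback {x v y a : ℝ} (hx : |x| ≤ 1) (hv : |v| ≤ 1) (hy : |y| ≤ 3 / 4) (ha : |a| ≤ 1 / 2) :
    ∃ c, |c| ≤ 4 * |a| ∧ Mv |a| x a v y x 0 v (y + a * |a| / 2) c := by
  obtain ⟨hy1, hy2⟩ := abs_le.1 hy
  rcases le_total 0 a with h | h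
  · have h1 := Mv.single 3 x a v y h
    rw [abs_of_nonneg h] at ha ⊢
    refine ⟨_, ?_, h1.congr rfl ?_ ?_ ?_ ?_ rfl⟩
    · apply abs_fc_le h
      intro s hs
      apply abs_H_le
      · simpa [ctl] using hx
      · simp only [ctl]
        rw [abs_le]
        simp
        constructor <;> linarith [hs.1, hs.2]
      · simpa [ctl] using hv
      · simp only [ctl]
        rw [abs_le]
        simp
        constructor <;> nlinarith [hs.1, hs.2]
    · simp [ctl]
    · simp [ctl]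
    · simp [ctl]
    · simp [ctl]; ring
  · have h1 := Mv.single 2 x a v y (θ := -a) (by linarith)
    rw [abs_of_nonpos h] at ha ⊢
    refine ⟨_, ?_, h1.congr rfl ?_ ?_ ?_ ?_ rfl⟩
    · apply abs_fc_le (by linarith)
      intro s hs
      apply abs_H_le
      · simpa [ctl] using hx
      · simp only [ctl]
        rw [abs_le]
        simp
        constructor <;> linarith [hs.1, hs.2]
      · simpa [ctl] using hv
      · simp only [ctl]
        rw [abs_le]
        simp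
        constructor <;> nlinarith [hs.1, hs.2]
    · simp [ctl]
    · simp [ctl]
    · simp [ctl]
    · simp [ctl]; ring

/-- changing `y` by `d`. -/
lemma ybump {x v y d : ℝ} (hx : |x| ≤ 1) (hv : |v| ≤ 1) (hy : |y| ≤ 1 / 2) (hd : |d| ≤ 1 / 4) :
    ∃ c, |c| ≤ 8 * √|d| ∧ Mv (2 * √|d|) x 0 v y x 0 v (y + d) c := by
  have hr : √|d| ≤ 1 / 2 := by
    apply Real.sqrt_le_iff.2
    exact ⟨by norm_num, by norm_num; linarith⟩
  have hr0 : 0 ≤ √|d| := Real.sqrt_nonneg _
  have hr2 : √|d| * √|d| = |d| := Real.mul_self_sqrt (abs_nonneg _)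
  -- the amplitude with sign
  obtain ⟨a, ha, had⟩ : ∃ a : ℝ, |a| = √|d| ∧ a * |a| = d := by
    rcases le_total 0 d with h | h
    · exact ⟨√|d|, abs_of_nonneg hr0, by rw [abs_of_nonneg hr0, hr2, abs_of_nonneg h]⟩
    · exact ⟨-√|d|, by rw [abs_neg, abs_of_nonneg hr0],
        by rw [abs_neg, abs_of_nonneg hr0, neg_mul, hr2, abs_of_nonpos h, neg_neg]⟩
  obtain ⟨c₁, hc₁, h₁⟩ := pmove hx hv hy (p₁ := a) (by rw [ha]; exact hr)
  obtain ⟨c₂, hc₂, h₂⟩ := pback (x := x) (v := v) (y := y + a * |a| / 2) (a := a) hx hv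
    (by
      rw [had]
      calc |y + d / 2| ≤ |y| + |d / 2| := abs_add_le _ _
        _ ≤ 1 / 2 + 1 / 8 := by
          gcongr
          rw [abs_div, abs_two]; linarith
        _ ≤ 3 / 4 := by norm_num) (by rw [ha]; exact hr)
  refine ⟨c₁ + c₂, ?_, (h₁.trans h₂).congr ?_ rfl rfl rfl ?_ rfl⟩
  · calc |c₁ + c₂| ≤ |c₁| + |c₂| := abs_add_le _ _
      _ ≤ 4 * |a| + 4 * |a| := by gcongr
      _ = 8 * √|d| := by rw [ha]; ring
  · rw [ha]; ring
  · linarith [had]

/-- the loop at the origin with positive cost. -/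
lemma ploop {a : ℝ} (ha : 0 ≤ a) : Mv (4 * a) 0 0 0 0 0 0 0 0 (23 / 60 * a ^ 5) := by
  have h1 := Mv.single 2 0 0 0 0 ha
  have h2 := Mv.single 3 0 a 0 (a ^ 2 / 2) (θ := 2 * a) (by positivity)
  have h3 := Mv.single 2 0 (-a) 0 (a ^ 2 / 2) ha
  have h1' : Mv a 0 0 0 0 0 a 0 (a ^ 2 / 2) (a ^ 5 / 80) := by
    refine h1.congr rfl ?_ ?_ ?_ ?_ ?_
    · simp [ctl]
    · simp [ctl]
    · simp [ctl]
    · simp [ctl]
    · simp only [ctl, fc, H]
      simp
      have : ∀ s : ℝ, (s ^ 2 / 2 / 2) ^ 2 = s ^ 4 / 16 := by intro s; ring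
      simp only [this, intervalIntegral.integral_div, integral_pow]
      norm_num; ring
  have h2' : Mv (2 * a) 0 a 0 (a ^ 2 / 2) 0 (-a) 0 (a ^ 2 / 2) (43 / 120 * a ^ 5) := by
    refine h2.congr rfl ?_ ?_ ?_ ?_ ?_
    · simp [ctl]
    · simp [ctl]; ring
    · simp [ctl]
    · simp [ctl]; ring
    · simp only [ctl, fc, H]
      simp
      have : ∀ s : ℝ, ((a ^ 2 / 2 + a * s + -s ^ 2 / 2) / 2) ^ 2 =
          (a ^ 4 / 16 + a ^ 3 / 4 * s ^ 1 + a ^ 2 / 8 * s ^ 2 + s ^ 4 / 16 - a / 4 * s ^ 3) := by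
        intro s; ring
      simp only [this]
      rw [intervalIntegral.integral_sub, intervalIntegral.integral_add,
        intervalIntegral.integral_add, intervalIntegral.integral_add]
      · simp only [intervalIntegral.integral_const, intervalIntegral.integral_const_mul,
          intervalIntegral.integral_div, integral_pow, smul_eq_mul]
        norm_num; ring
      all_goals exact Continuous.intervalIntegrable (by fun_prop) _ _
  have h3' : Mv a 0 (-a) 0 (a ^ 2 / 2) 0 0 0 0 (a ^ 5 / 80) := by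
    refine h3.congr rfl ?_ ?_ ?_ ?_ ?_
    · simp [ctl]
    · simp [ctl]
    · simp [ctl]
    · simp [ctl]; ring
    · simp only [ctl, fc, H]
      simp
      have : ∀ s : ℝ, ((a ^ 2 / 2 + -(a * s) + s ^ 2 / 2) / 2) ^ 2 =
          (a ^ 4 / 16 - a ^ 3 / 4 * s ^ 1 + 3 * a ^ 2 / 8 * s ^ 2 + s ^ 4 / 16 - a / 4 * s ^ 3) := by
        intro s; ring
      simp only [this]
      rw [intervalIntegral.integral_sub, intervalIntegral.integral_add,
        intervalIntegral.integral_add, intervalIntegral.integral_sub]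
      · simp only [intervalIntegral.integral_const, intervalIntegral.integral_const_mul,
          intervalIntegral.integral_div, integral_pow, smul_eq_mul]
        norm_num; ring
      all_goals exact Continuous.intervalIntegrable (by fun_prop) _ _
  refine ((h1'.trans h2').trans h3').congr ?_ rfl rfl rfl rfl ?_ <;> ring

end

/-! STLCChatter -/

noncomputable section

lemma H_lip {x p x' p' v y y' D : ℝ} (hx' : |x'| ≤ 1) (hp : |p| ≤ 1) (hp' : |p'| ≤ 1)
    (hx : |x| ≤ 1) (hv : |v| ≤ 1) (hy : |y| ≤ 1) (hy' : |y'| ≤ 1)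
    (h1 : |x - x'| ≤ D) (h2 : |p - p'| ≤ D) (h3 : |y - y'| ≤ 3 * D) :
    |H x p v y - H x' p' v y'| ≤ 20 * D := by
  have hD : 0 ≤ D := (abs_nonneg _).trans h1
  have e : H x p v y - H x' p' v y' =
      ((x - x') * p + x' * (p - p') + (y - y') / 2) * (x * p + y / 2 + x' * p' + y' / 2) -
        v * ((y - y') * (y + y')) := by
    unfold H; ring
  rw [e]
  have a1 : |(x - x') * p + x' * (p - p') + (y - y') / 2| ≤ 7 / 2 * D := by
    calc _ ≤ |(x - x') * p| + |x' * (p - p')| + |(y - y') / 2| := abs_add_three _ _ _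
      _ = |x - x'| * |p| + |x'| * |p - p'| + |y - y'| / 2 := by
          rw [abs_mul, abs_mul, abs_div, abs_two]
      _ ≤ D * 1 + 1 * D + 3 * D / 2 := by gcongr
      _ = 7 / 2 * D := by ring
  have a2 : |x * p + y / 2 + x' * p' + y' / 2| ≤ 3 := by
    calc _ ≤ |x * p| + |y / 2| + |x' * p'| + |y' / 2| := by
            refine (abs_add_le _ _).trans ?_
            gcongr
            exact abs_add_three _ _ _
      _ = |x| * |p| + |y| / 2 + |x'| * |p'| + |y'| / 2 := by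
          rw [abs_mul, abs_mul, abs_div, abs_div, abs_two]
      _ ≤ 1 * 1 + 1 / 2 + 1 * 1 + 1 / 2 := by gcongr
      _ = 3 := by norm_num
  have a3 : |y + y'| ≤ 2 := (abs_add_le _ _).trans (by linarith)
  calc _ ≤ |((x - x') * p + x' * (p - p') + (y - y') / 2) * (x * p + y / 2 + x' * p' + y' / 2)| +
        |v * ((y - y') * (y + y'))| := abs_sub _ _
    _ = |(x - x') * p + x' * (p - p') + (y - y') / 2| * |x * p + y / 2 + x' * p' + y' / 2| +
        |v| * (|y - y'| * |y + y'|) := by rw [abs_mul, abs_mul, abs_mul]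
    _ ≤ 7 / 2 * D * 3 + 1 * (3 * D * 2) := by gcongr
    _ ≤ 20 * D := by linarith

lemma abs_fc_sub_le {A B C x p v y θ K h₀ : ℝ} (hθ : 0 ≤ θ)
    (h : ∀ s ∈ Icc 0 θ,
      |H (x + A * s) (p + B * s) (v + C * s) (y + p * s + B * s ^ 2 / 2) - h₀| ≤ K) :
    |fc A B C x p v y θ - h₀ * θ| ≤ K * θ := by
  have h1 : fc A B C x p v y θ - h₀ * θ = ∫ s in (0 : ℝ)..θ,
      (H (x + A * s) (p + B * s) (v + C * s) (y + p * s + B * s ^ 2 / 2) - h₀) := by
    rw [intervalIntegral.integral_sub ((continuous_H_flow A B C x p v y).intervalIntegrable _ _)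
      (by simp)]
    simp [fc, mul_comm]
  rw [h1]
  have := intervalIntegral.norm_integral_le_of_norm_le_const (a := 0) (b := θ) (C := K)
    (f := fun s => H (x + A * s) (p + B * s) (v + C * s) (y + p * s + B * s ^ 2 / 2) - h₀) (by
      intro s hs
      rw [uIoc_of_le hθ] at hs
      exact h s (Ioc_subset_Icc_self hs))
  rw [sub_zero, abs_of_nonneg hθ] at this
  exact this

/-- one step of the chattering control. -/
lemma chatter_step {x P v y Δ d : ℝ} (hΔ0 : 0 < Δ) (hΔ : Δ ≤ 1 / 8) (hd : |d| ≤ Δ / 2)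
    (hx0 : 0 ≤ x) (hx : x + Δ ≤ 1) (hv : |v| ≤ 1) (hP : |P| ≤ 1 / 2) (hy : |y| ≤ 3 / 4) :
    ∃ y' c, |y' - y - P * Δ| ≤ Δ ^ 2 ∧ |c - H x P v y * Δ| ≤ 20 * Δ ^ 2 ∧
      Mv Δ x P v y (x + Δ) (P + d) v y' c := by
  obtain ⟨hd1, hd2⟩ := abs_le.1 hd
  obtain ⟨hP1, hP2⟩ := abs_le.1 hP
  obtain ⟨hy1, hy2⟩ := abs_le.1 hy
  set τ₁ := (Δ + d) / 2 with hτ₁
  set τ₂ := (Δ - d) / 2 with hτ₂
  have hτ₁0 : 0 ≤ τ₁ := by rw [hτ₁]; linarith
  have hτ₂0 : 0 ≤ τ₂ := by rw [hτ₂]; linarith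
  have hsum : τ₁ + τ₂ = Δ := by rw [hτ₁, hτ₂]; ring
  have hdiff : τ₁ - τ₂ = d := by rw [hτ₁, hτ₂]; ring
  have h1 := Mv.single 6 x P v y hτ₁0
  have h2 := Mv.single 7 (x + τ₁) (P + τ₁) v (y + P * τ₁ + τ₁ ^ 2 / 2) hτ₂0
  have h1' := h1.congr (T₂ := τ₁) (x₂ := x + τ₁) (p₂ := P + τ₁) (v₂ := v)
    (y₂ := y + P * τ₁ + τ₁ ^ 2 / 2) (c₂ := fc 1 1 0 x P v y τ₁) rfl (by simp [ctl])
    (by simp [ctl]) (by simp [ctl]) (by simp [ctl]) (by simp [ctl])
  have h2' := h2.congr (T₂ := τ₂) (x₂ := x + Δ) (p₂ := P + d) (v₂ := v)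
    (y₂ := y + P * τ₁ + τ₁ ^ 2 / 2 + (P + τ₁) * τ₂ - τ₂ ^ 2 / 2)
    (c₂ := fc 1 (-1) 0 (x + τ₁) (P + τ₁) v (y + P * τ₁ + τ₁ ^ 2 / 2) τ₂) rfl
    (by simp [ctl]; linarith) (by simp [ctl]; linarith) (by simp [ctl])
    (by simp [ctl]; ring) (by simp [ctl])
  have hpt : ∀ r, |P * r| ≤ 1 / 2 * |r| := by
    intro r; rw [abs_mul]; gcongr
  refine ⟨_, _, ?_, ?_, (h1'.trans h2').congr hsum rfl rfl rfl rfl rfl⟩
  · have e : y + P * τ₁ + τ₁ ^ 2 / 2 + (P + τ₁) * τ₂ - τ₂ ^ 2 / 2 - y - P * Δ =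
        τ₁ ^ 2 / 2 + τ₁ * τ₂ - τ₂ ^ 2 / 2 := by rw [← hsum]; ring
    rw [e, ← hsum, abs_le]
    constructor <;> nlinarith [mul_nonneg hτ₁0 hτ₂0]
  · have b1 : |fc 1 1 0 x P v y τ₁ - H x P v y * τ₁| ≤ 20 * Δ * τ₁ := by
      apply abs_fc_sub_le hτ₁0
      intro s hs
      have hs0 := hs.1
      have hs1 : s ≤ Δ := by linarith [hs.2]
      have hPs := hpt s
      rw [abs_of_nonneg hs0] at hPs
      obtain ⟨q1, q2⟩ := abs_le.1 hPs
      have hs2 : s ^ 2 ≤ Δ * s := by nlinarith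
      rw [show v + 0 * s = v by ring]
      apply H_lip
      · rw [abs_of_nonneg hx0]; linarith
      · rw [abs_le]; constructor <;> linarith
      · rw [abs_le]; constructor <;> linarith
      · rw [abs_le]; constructor <;> linarith
      · exact hv
      · rw [abs_le]; constructor <;> nlinarith
      · rw [abs_le]; constructor <;> linarith
      · rw [abs_le]; constructor <;> linarith
      · rw [abs_le]; constructor <;> linarith
      · rw [abs_le]; constructor <;> nlinarith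
    have b2 : |fc 1 (-1) 0 (x + τ₁) (P + τ₁) v (y + P * τ₁ + τ₁ ^ 2 / 2) τ₂ - H x P v y * τ₂| ≤
        20 * Δ * τ₂ := by
      apply abs_fc_sub_le hτ₂0
      intro s hs
      have hs0 := hs.1
      have hs1 : τ₁ + s ≤ Δ := by linarith [hs.2]
      have hPs := hpt (τ₁ + s)
      rw [abs_of_nonneg (by linarith : 0 ≤ τ₁ + s)] at hPs
      obtain ⟨q1, q2⟩ := abs_le.1 hPs
      have hτ₁2 : τ₁ ^ 2 ≤ Δ * τ₁ := by nlinarith
      have hs2 : s ^ 2 ≤ Δ * s := by nlinarith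
      have hts : τ₁ * s ≤ Δ * s := by nlinarith
      have hts0 : 0 ≤ τ₁ * s := by positivity
      rw [show v + 0 * s = v by ring]
      apply H_lip
      · rw [abs_of_nonneg hx0]; linarith
      · rw [abs_le]; constructor <;> linarith
      · rw [abs_le]; constructor <;> linarith
      · rw [abs_le]; constructor <;> linarith
      · exact hv
      · rw [abs_le]; constructor <;> nlinarith
      · rw [abs_le]; constructor <;> linarith
      · rw [abs_le]; constructor <;> linarith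
      · rw [abs_le]; constructor <;> linarith
      · rw [abs_le]; constructor <;> nlinarith
    calc _ = |(fc 1 1 0 x P v y τ₁ - H x P v y * τ₁) +
          (fc 1 (-1) 0 (x + τ₁) (P + τ₁) v (y + P * τ₁ + τ₁ ^ 2 / 2) τ₂ - H x P v y * τ₂)| := by
            congr 1; rw [← hsum]; ring
      _ ≤ 20 * Δ * τ₁ + 20 * Δ * τ₂ := (abs_add_le _ _).trans (by linarith)
      _ = 20 * Δ ^ 2 := by rw [← mul_add, hsum]; ring

end

/-! STLCIdeal -/

noncomputable section

lemma Mv.refl (x p v y : ℝ) : Mv 0 x p v y x p v y 0 := by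
  intro a S z h
  simpa using h

/-- mean value estimate. -/
lemma mean_value {F F' : ℝ → ℝ} {a b h₀ K : ℝ} (hab : a ≤ b)
    (hF : ∀ s ∈ Icc a b, HasDerivAt F (F' s) s) (hK : ∀ s ∈ Icc a b, |F' s - h₀| ≤ K) :
    |F b - F a - h₀ * (b - a)| ≤ K * (b - a) := by
  have h := abs_le_of_right_deriv (f := fun s => F s - h₀ * s) (a := a) (b := b) (C := K)
    (fun s hs => ((hF s hs).continuousAt.sub (by fun_prop)).continuousWithinAt)
    (fun s hs => ⟨F' s - h₀, hK s (Ico_subset_Icc_self hs), by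
      have h1 : HasDerivAt (fun s : ℝ => h₀ * s) h₀ s := by
        simpa using (hasDerivAt_id s).const_mul h₀
      exact ((hF s (Ico_subset_Icc_self hs)).sub h1).hasDerivWithinAt⟩)
    b (right_mem_Icc.2 hab)
  have e : F b - F a - h₀ * (b - a) = F b - h₀ * b - (F a - h₀ * a) := by ring
  rw [e]
  exact h

lemma chatter {V α β : ℝ} {P Y Z : ℝ → ℝ} (hV : |V| ≤ 1) (hα : 0 < α) (hαβ : α < β)
    (hβ : β ≤ 1)
    (hP : ∀ s ∈ Icc α β, ∀ s' ∈ Icc α β, |P s - P s'| ≤ |s - s'| / 2)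
    (hPα : P α = 0) (hPβ : P β = 0)
    (hY : ∀ s ∈ Icc α β, HasDerivAt Y (P s) s) (hYα : Y α = 0)
    (hZ : ∀ s ∈ Icc α β, HasDerivAt Z (H s (P s) V (Y s)) s) (hZα : Z α = 0)
    {ε : ℝ} (hε : 0 < ε) :
    ∃ e c, |e - Y β| ≤ ε ∧ |c - Z β| ≤ ε ∧ Mv (β - α) α 0 V 0 β 0 V e c := by
  have hα' : α ∈ Icc α β := left_mem_Icc.2 hαβ.le
  have hℓ0 : 0 < β - α := by linarith
  have hℓ1 : β - α ≤ 1 := by linarith
  have hPb : ∀ s ∈ Icc α β, |P s| ≤ 1 / 2 := by
    intro s hs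
    have := hP s hs α hα'
    rw [hPα, sub_zero, abs_of_nonneg (by linarith [hs.1] : 0 ≤ s - α)] at this
    linarith [hs.2]
  have hYb : ∀ s ∈ Icc α β, |Y s| ≤ 1 / 2 := by
    intro s hs
    have := mean_value (F := Y) (F' := P) (h₀ := 0) (K := 1 / 2) hs.1
      (fun u hu => hY u ⟨hu.1, hu.2.trans hs.2⟩)
      (fun u hu => by rw [sub_zero]; exact hPb u ⟨hu.1, hu.2.trans hs.2⟩)
    rw [hYα, sub_zero, zero_mul, sub_zero] at this
    linarith [hs.2]
  obtain ⟨n, hn⟩ := exists_nat_gt (max (8 : ℝ) (60 / ε))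
  have hn8 : (8 : ℝ) < n := (le_max_left _ _).trans_lt hn
  have hnε : 60 / ε < n := (le_max_right _ _).trans_lt hn
  have hn0 : (0 : ℝ) < n := by linarith
  set Δ := (β - α) / n with hΔ
  have hΔ0 : 0 < Δ := by positivity
  have hΔn : n * Δ = β - α := by rw [hΔ]; field_simp
  have hΔ8 : Δ ≤ 1 / 8 := by
    rw [hΔ, div_le_div_iff₀ hn0 (by norm_num)]
    linarith
  have hΔε : 60 * Δ ≤ ε := by
    rw [hΔ, mul_div_assoc', div_le_iff₀ hn0]
    rw [div_lt_iff₀ hε] at hnε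
    nlinarith
  have key : ∀ i : ℕ, i ≤ n → ∃ y c, |y - Y (α + i * Δ)| ≤ 2 * i * Δ ^ 2 ∧
      |c - Z (α + i * Δ)| ≤ 60 * i * Δ ^ 2 ∧
      Mv (i * Δ) α 0 V 0 (α + i * Δ) (P (α + i * Δ)) V y c := by
    intro i
    induction i with
    | zero =>
      intro _
      refine ⟨0, 0, by simp [hYα], by simp [hZα], ?_⟩
      have := Mv.refl α 0 V 0
      simpa [hPα] using this
    | succ i ih =>
      intro hi
      obtain ⟨y, c, hy, hc, hM⟩ := ih (by omega)
      have hi' : (i : ℝ) + 1 ≤ n := by exact_mod_cast hi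
      have hi0 : (0 : ℝ) ≤ i := Nat.cast_nonneg i
      have hiΔ : i * Δ + Δ ≤ β - α := by
        rw [← hΔn]; nlinarith
      have hiΔ0 : 0 ≤ i * Δ := by positivity
      set s := α + i * Δ with hs
      have hsI : s ∈ Icc α β := ⟨by linarith, by linarith⟩
      have hs'I : s + Δ ∈ Icc α β := ⟨by linarith, by linarith⟩
      have hnext : α + ((i + 1 : ℕ) : ℝ) * Δ = s + Δ := by rw [hs]; push_cast; ring
      have hsub : ∀ u ∈ Icc s (s + Δ), u ∈ Icc α β := fun u hu =>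
        ⟨hsI.1.trans hu.1, hu.2.trans hs'I.2⟩
      have hsum1 : 2 * i * Δ ^ 2 ≤ 2 * Δ := by
        have : i * Δ ≤ 1 := by linarith
        nlinarith
      have hy34 : |y| ≤ 3 / 4 := by
        have h1 := hYb s hsI
        have h2 : |y| ≤ |y - Y s| + |Y s| := by
          have := abs_add_le (y - Y s) (Y s)
          simpa using this
        linarith
      have hd : |P (s + Δ) - P s| ≤ Δ / 2 := by
        have := hP (s + Δ) hs'I s hsI
        rwa [add_sub_cancel_left, abs_of_pos hΔ0] at this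
      obtain ⟨y', c', h1, h2, h3⟩ := chatter_step (x := s) (P := P s) (v := V) (y := y)
        (d := P (s + Δ) - P s) hΔ0 hΔ8 hd (hα.le.trans hsI.1) (hs'I.2.trans hβ) hV
        (hPb s hsI) hy34
      have hPs : ∀ u ∈ Icc s (s + Δ), |P u - P s| ≤ Δ / 2 := by
        intro u hu
        have := hP u (hsub u hu) s hsI
        rw [abs_of_nonneg (by linarith [hu.1] : 0 ≤ u - s)] at this
        linarith [hu.2]
      have hYs : ∀ u ∈ Icc s (s + Δ), |Y u - Y s| ≤ Δ := by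
        intro u hu
        have := mean_value (F := Y) (F' := P) (h₀ := 0) (K := 1 / 2) hu.1
          (fun w hw => hY w (hsub w ⟨hw.1, hw.2.trans hu.2⟩))
          (fun w hw => by rw [sub_zero]; exact hPb w (hsub w ⟨hw.1, hw.2.trans hu.2⟩))
        rw [zero_mul, sub_zero] at this
        linarith [hu.2]
      have hYstep : |Y (s + Δ) - Y s - P s * Δ| ≤ Δ ^ 2 := by
        have := mean_value (F := Y) (F' := P) (h₀ := P s) (K := Δ / 2)
          (by linarith : s ≤ s + Δ) (fun u hu => hY u (hsub u hu)) hPs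
        rw [add_sub_cancel_left] at this
        nlinarith
      have hZstep : |Z (s + Δ) - Z s - H s (P s) V (Y s) * Δ| ≤ 20 * Δ ^ 2 := by
        have := mean_value (F := Z) (F' := fun u => H u (P u) V (Y u))
          (h₀ := H s (P s) V (Y s)) (K := 20 * Δ)
          (by linarith : s ≤ s + Δ) (fun u hu => hZ u (hsub u hu)) (by
            intro u hu
            have huI := hsub u hu
            apply H_lip
            · rw [abs_of_nonneg (hα.le.trans hsI.1)]; exact hsI.2.trans hβ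
            · linarith [hPb u huI]
            · linarith [hPb s hsI]
            · rw [abs_of_nonneg (hα.le.trans huI.1)]; exact huI.2.trans hβ
            · exact hV
            · linarith [hYb u huI]
            · linarith [hYb s hsI]
            · rw [abs_of_nonneg (by linarith [hu.1])]; linarith [hu.2]
            · linarith [hPs u hu]
            · linarith [hYs u hu])
        rw [add_sub_cancel_left] at this
        linarith
      have hHs : |H s (P s) V y - H s (P s) V (Y s)| ≤ 20 * Δ := by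
        apply H_lip
        · rw [abs_of_nonneg (hα.le.trans hsI.1)]; exact hsI.2.trans hβ
        · linarith [hPb s hsI]
        · linarith [hPb s hsI]
        · rw [abs_of_nonneg (hα.le.trans hsI.1)]; exact hsI.2.trans hβ
        · exact hV
        · linarith
        · linarith [hYb s hsI]
        · simpa using hΔ0.le
        · simpa using hΔ0.le
        · linarith
      refine ⟨y', c + c', ?_, ?_, ?_⟩
      · rw [hnext]
        have e : y' - Y (s + Δ) = (y' - y - P s * Δ) + (y - Y s) -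
            (Y (s + Δ) - Y s - P s * Δ) := by ring
        rw [e]
        have t1 := abs_sub (y' - y - P s * Δ + (y - Y s)) (Y (s + Δ) - Y s - P s * Δ)
        have t2 := abs_add_le (y' - y - P s * Δ) (y - Y s)
        push_cast
        linarith
      · rw [hnext]
        have e : c + c' - Z (s + Δ) = (c' - H s (P s) V y * Δ) + (c - Z s) -
            (Z (s + Δ) - Z s - H s (P s) V (Y s) * Δ) +
            (H s (P s) V y - H s (P s) V (Y s)) * Δ := by ring
        rw [e]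
        have t1 := abs_add_le ((c' - H s (P s) V y * Δ) + (c - Z s) -
            (Z (s + Δ) - Z s - H s (P s) V (Y s) * Δ))
            ((H s (P s) V y - H s (P s) V (Y s)) * Δ)
        have t2 := abs_sub ((c' - H s (P s) V y * Δ) + (c - Z s))
          (Z (s + Δ) - Z s - H s (P s) V (Y s) * Δ)
        have t3 := abs_add_le (c' - H s (P s) V y * Δ) (c - Z s)
        have t4 : |(H s (P s) V y - H s (P s) V (Y s)) * Δ| ≤ 20 * Δ ^ 2 := by
          rw [abs_mul, abs_of_pos hΔ0, pow_two, ← mul_assoc]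
          gcongr
        push_cast
        linarith
      · rw [hnext]
        refine (hM.trans h3).congr ?_ rfl ?_ rfl rfl rfl
        · push_cast; ring
        · ring
  obtain ⟨y, c, hy, hc, hM⟩ := key n le_rfl
  have hend : α + n * Δ = β := by rw [hΔn]; ring
  rw [hend, hPβ] at hM
  rw [hend] at hy hc
  have hb : n * Δ ^ 2 ≤ Δ := by
    have : n * Δ ^ 2 = (n * Δ) * Δ := by ring
    rw [this, hΔn]
    nlinarith
  refine ⟨y, c, ?_, ?_, ?_⟩
  · refine hy.trans ?_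
    nlinarith
  · refine hc.trans ?_
    nlinarith
  · rw [hΔn] at hM
    exact hM

end

/-! STLCProfile -/

noncomputable section

def w (N τ : ℝ) : ℝ := τ ^ 2 * (N - τ) ^ 2
def w' (N τ : ℝ) : ℝ := 2 * τ * (N - τ) * (N - 2 * τ)
def AA (N V τ : ℝ) : ℝ :=
  4 / 3 * N ^ 4 * τ ^ 3 - 6 * N ^ 3 * τ ^ 4 + 52 / 5 * N ^ 2 * τ ^ 5 - 8 * N * τ ^ 6 +
    16 / 7 * τ ^ 7 - V * (N ^ 4 * τ ^ 5 / 5 - 2 / 3 * N ^ 3 * τ ^ 6 + 6 / 7 * N ^ 2 * τ ^ 7 -
    N * τ ^ 8 / 2 + τ ^ 9 / 9)

lemma hasDerivAt_w (N τ : ℝ) : HasDerivAt (w N) (w' N τ) τ := by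
  have h1 : HasDerivAt (fun τ : ℝ => N - τ) (-1) τ := by
    simpa using (hasDerivAt_id τ).const_sub N
  have h := (hasDerivAt_pow 2 τ).mul (h1.pow 2)
  refine h.congr_deriv ?_
  unfold w'
  simp only [Pi.pow_apply]
  push_cast
  ring

lemma hasDerivAt_AA (N V τ : ℝ) :
    HasDerivAt (AA N V) (w' N τ ^ 2 - V * w N τ ^ 2) τ := by
  have hp : ∀ k : ℕ, ∀ a : ℝ, HasDerivAt (fun τ : ℝ => a * τ ^ (k + 1)) (a * ((k + 1) * τ ^ k)) τ := by
    intro k a
    have := (hasDerivAt_pow (k + 1) τ).const_mul a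
    refine this.congr_deriv ?_
    push_cast; simp
  have h : HasDerivAt (fun τ : ℝ => (4 / 3 * N ^ 4) * τ ^ (2 + 1) - (6 * N ^ 3) * τ ^ (3 + 1) +
      (52 / 5 * N ^ 2) * τ ^ (4 + 1) - (8 * N) * τ ^ (5 + 1) + (16 / 7) * τ ^ (6 + 1) -
      V * ((N ^ 4 / 5) * τ ^ (4 + 1) - (2 / 3 * N ^ 3) * τ ^ (5 + 1) +
        (6 / 7 * N ^ 2) * τ ^ (6 + 1) - (N / 2) * τ ^ (7 + 1) + (1 / 9) * τ ^ (8 + 1)))
      _ τ :=
    (((((hp 2 _).sub (hp 3 _)).add (hp 4 _)).sub (hp 5 _)).add (hp 6 _)).sub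
      ((((((hp 4 _).sub (hp 5 _)).add (hp 6 _)).sub (hp 7 _)).add (hp 8 _)).const_mul V)
  have e : AA N V = (fun τ : ℝ => (4 / 3 * N ^ 4) * τ ^ (2 + 1) - (6 * N ^ 3) * τ ^ (3 + 1) +
      (52 / 5 * N ^ 2) * τ ^ (4 + 1) - (8 * N) * τ ^ (5 + 1) + (16 / 7) * τ ^ (6 + 1) -
      V * ((N ^ 4 / 5) * τ ^ (4 + 1) - (2 / 3 * N ^ 3) * τ ^ (5 + 1) +
        (6 / 7 * N ^ 2) * τ ^ (6 + 1) - (N / 2) * τ ^ (7 + 1) + (1 / 9) * τ ^ (8 + 1))) := by
    funext τ; unfold AA; ring
  rw [e]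
  refine h.congr_deriv ?_
  unfold w w'
  push_cast
  ring

lemma AA_end (N V : ℝ) : AA N V N = 2 / 105 * N ^ 7 - V * N ^ 9 / 630 := by
  unfold AA; ring

/-- the profile. -/
def Y0 (N α s : ℝ) : ℝ := w N (Real.log s - Real.log α) / √s
def P0 (N α s : ℝ) : ℝ :=
  (w' N (Real.log s - Real.log α) - w N (Real.log s - Real.log α) / 2) / (s * √s)

lemma hasDerivAt_log_sub {α s : ℝ} (hs : 0 < s) :
    HasDerivAt (fun s => Real.log s - Real.log α) (1 / s) s := by
  simpa using (Real.hasDerivAt_log hs.ne').sub_const (Real.log α)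

lemma hasDerivAt_Y0 {N α s : ℝ} (hs : 0 < s) : HasDerivAt (Y0 N α) (P0 N α s) s := by
  have h1 := (hasDerivAt_w N (Real.log s - Real.log α)).comp s (hasDerivAt_log_sub (α := α) hs)
  have h2 := Real.hasDerivAt_sqrt hs.ne'
  have hsq : √s ≠ 0 := (Real.sqrt_pos.2 hs).ne'
  have h := h1.div h2 hsq
  refine h.congr_deriv ?_
  unfold P0
  have hss : √s ^ 2 = s := Real.sq_sqrt hs.le
  simp only [Function.comp_apply]
  rw [hss]
  field_simp
  rw [hss]
  ring

lemma hasDerivAt_Z0 {N V α s : ℝ} (hs : 0 < s) :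
    HasDerivAt (fun s => AA N V (Real.log s - Real.log α))
      (H s (P0 N α s) V (Y0 N α s)) s := by
  have h1 := (hasDerivAt_AA N V (Real.log s - Real.log α)).comp s
    (hasDerivAt_log_sub (α := α) hs)
  refine h1.congr_deriv ?_
  have hsq : √s ≠ 0 := (Real.sqrt_pos.2 hs).ne'
  have hss : √s ^ 2 = s := Real.sq_sqrt hs.le
  unfold H P0 Y0
  generalize w' N (Real.log s - Real.log α) = a
  generalize w N (Real.log s - Real.log α) = b
  have e1 : s * ((a - b / 2) / (s * √s)) + b / √s / 2 = a / √s := by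
    field_simp; ring
  rw [e1, div_pow, div_pow, hss]
  ring

lemma contDiffOn_P0 (N α : ℝ) : ContDiffOn ℝ 1 (P0 N α) (Ioi 0) := by
  intro s hs
  have hs' : (0 : ℝ) < s := hs
  apply ContDiffAt.contDiffWithinAt
  have hlog : ContDiffAt ℝ 1 (fun s => Real.log s - Real.log α) s :=
    (Real.contDiffAt_log.2 hs'.ne').sub contDiffAt_const
  have hsqrt : ContDiffAt ℝ 1 (fun s => √s) s := contDiffAt_id.sqrt hs'.ne'
  have hne : s * √s ≠ 0 := (mul_pos hs' (Real.sqrt_pos.2 hs')).ne'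
  unfold P0 w w'
  apply ContDiffAt.div _ (contDiffAt_id.mul hsqrt) hne
  apply ContDiffAt.sub
  · exact ((contDiffAt_const.mul hlog).mul (contDiffAt_const.sub hlog)).mul
      (contDiffAt_const.sub (contDiffAt_const.mul hlog))
  · exact ((hlog.pow 2).mul ((contDiffAt_const.sub hlog).pow 2)).div_const 2

lemma lipschitz_P0 (N : ℝ) {α β : ℝ} (hα : 0 < α) : ∃ K : ℝ, 0 < K ∧
    ∀ s ∈ Icc α β, ∀ s' ∈ Icc α β, |P0 N α s - P0 N α s'| ≤ K * |s - s'| := by
  have hsub : Icc α β ⊆ Ioi 0 := fun s hs => hα.trans_le hs.1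
  have hc : ContinuousOn (deriv (P0 N α)) (Icc α β) :=
    ((contDiffOn_P0 N α).continuousOn_deriv_of_isOpen isOpen_Ioi le_rfl).mono hsub
  obtain ⟨K, hK⟩ := isCompact_Icc.exists_bound_of_continuousOn hc
  refine ⟨max K 1, by positivity, ?_⟩
  intro s hs s' hs'
  have := Convex.norm_image_sub_le_of_norm_deriv_le (f := P0 N α) (s := Icc α β) (C := max K 1)
    (x := s') (y := s)
    (fun u hu => ((contDiffOn_P0 N α).differentiableOn one_ne_zero u (hsub hu)).differentiableAt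
      (Ioi_mem_nhds (hsub hu)))
    (fun u hu => (hK u hu).trans (le_max_left _ _)) (convex_Icc _ _) hs' hs
  exact this

/-- existence of a loop with negative cost for a positive value of the coupling. -/
lemma exists_ideal {V β : ℝ} (hV : 0 < V) (hβ : 0 < β) :
    ∃ α, 0 < α ∧ α < β ∧ ∀ ζ₀ > 0, ∃ P Y Z : ℝ → ℝ,
      (∀ s ∈ Icc α β, ∀ s' ∈ Icc α β, |P s - P s'| ≤ |s - s'| / 2) ∧ P α = 0 ∧ P β = 0 ∧
      (∀ s ∈ Icc α β, HasDerivAt Y (P s) s) ∧ Y α = 0 ∧ Y β = 0 ∧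
      (∀ s ∈ Icc α β, HasDerivAt Z (H s (P s) V (Y s)) s) ∧ Z α = 0 ∧ Z β < 0 ∧ -ζ₀ < Z β := by
  set N := √(24 / V) with hN
  have hN0 : 0 < N := Real.sqrt_pos.2 (by positivity)
  have hN2 : V * N ^ 2 = 24 := by
    rw [hN, Real.sq_sqrt (by positivity)]; field_simp
  set α := β * Real.exp (-N) with hα
  have hα0 : 0 < α := by positivity
  have hαβ : α < β := by
    rw [hα]
    have : Real.exp (-N) < 1 := by rw [Real.exp_lt_one_iff]; linarith
    nlinarith
  have hlog : Real.log β - Real.log α = N := by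
    rw [hα, Real.log_mul hβ.ne' (Real.exp_pos _).ne', Real.log_exp]; ring
  refine ⟨α, hα0, hαβ, ?_⟩
  intro ζ₀ hζ₀
  obtain ⟨K, hK0, hK⟩ := lipschitz_P0 N (β := β) hα0
  set A := 2 / 105 * N ^ 7 with hA
  have hA0 : 0 < A := by positivity
  have hAend : AA N V N = -A := by
    rw [AA_end, hA]
    have : V * N ^ 9 = 24 * N ^ 7 := by rw [← hN2]; ring
    rw [this]; ring
  -- choice of the amplitude
  obtain ⟨ε, hε0, hεK, hεζ⟩ : ∃ ε : ℝ, 0 < ε ∧ ε * K ≤ 1 / 2 ∧ ε ^ 2 * A < ζ₀ := by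
    refine ⟨min (1 / (2 * K)) (min 1 (ζ₀ / (2 * A))), by positivity, ?_, ?_⟩
    · calc min (1 / (2 * K)) (min 1 (ζ₀ / (2 * A))) * K ≤ 1 / (2 * K) * K := by
            gcongr; exact min_le_left _ _
        _ = 1 / 2 := by field_simp
    · set ε := min (1 / (2 * K)) (min 1 (ζ₀ / (2 * A))) with hε
      have h0 : 0 < ε := by positivity
      have h1 : ε ≤ 1 := (min_le_right _ _).trans (min_le_left _ _)
      have h2 : ε ≤ ζ₀ / (2 * A) := (min_le_right _ _).trans (min_le_right _ _)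
      have h3 : ε ^ 2 ≤ ε := by nlinarith
      calc ε ^ 2 * A ≤ ε * A := mul_le_mul_of_nonneg_right h3 hA0.le
        _ ≤ ζ₀ / (2 * A) * A := by gcongr
        _ = ζ₀ / 2 := by field_simp
        _ < ζ₀ := by linarith
  refine ⟨fun s => ε * P0 N α s, fun s => ε * Y0 N α s,
    fun s => ε ^ 2 * AA N V (Real.log s - Real.log α), ?_, ?_, ?_, ?_, ?_, ?_, ?_, ?_, ?_, ?_⟩
  · intro s hs s' hs'
    rw [← mul_sub, abs_mul, abs_of_pos hε0]
    have h1 := hK s hs s' hs'
    calc ε * |P0 N α s - P0 N α s'| ≤ ε * (K * |s - s'|) := by gcongr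
      _ = (ε * K) * |s - s'| := by ring
      _ ≤ 1 / 2 * |s - s'| := by gcongr
      _ = |s - s'| / 2 := by ring
  · simp [P0, w, w']
  · simp [P0, w, w', hlog]
  · intro s hs
    exact (hasDerivAt_Y0 (hα0.trans_le hs.1)).const_mul ε
  · simp [Y0, w]
  · simp [Y0, w, hlog]
  · intro s hs
    refine ((hasDerivAt_Z0 (N := N) (V := V) (α := α) (hα0.trans_le hs.1)).const_mul
      (ε ^ 2)).congr_deriv ?_
    unfold H; ring
  · simp [AA]
  · simp only [hlog, hAend]
    have : 0 < ε ^ 2 * A := by positivity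
    linarith
  · simp only [hlog, hAend]
    linarith

end

/-! STLCMain -/

noncomputable section

/-- arbitrarily fast loops at the origin with negative cost. -/
lemma neg_loop {t ζ₀ : ℝ} (ht : 0 < t) (hζ₀ : 0 < ζ₀) :
    ∃ T ζ, 0 < T ∧ T < t ∧ 0 < ζ ∧ ζ < ζ₀ ∧ Mv T 0 0 0 0 0 0 0 0 (-ζ) := by
  obtain ⟨b, hb0, hb1, hbt⟩ : ∃ b : ℝ, 0 < b ∧ b ≤ 1 / 2 ∧ 4 * b ≤ t / 4 :=
    ⟨min (1 / 2) (t / 16), by positivity, min_le_left _ _, by
      have := min_le_right (1 / 2) (t / 16); linarith⟩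
  obtain ⟨α, hα0, hαb, hid⟩ := exists_ideal hb0 hb0
  obtain ⟨P, Y, Z, hP, hPα, hPβ, hY, hYα, hYβ, hZ, hZα, hZβ, hZβ'⟩ := hid (ζ₀ / 2) (by linarith)
  set ζ₁ := -Z b with hζ₁
  have hζ₁0 : 0 < ζ₁ := by linarith
  have hζ₁1 : ζ₁ < ζ₀ / 2 := by linarith
  obtain ⟨ε, hε0, hε1, hε2, hε3, hε4⟩ : ∃ ε : ℝ, 0 < ε ∧ ε ≤ 1 / 4 ∧ ε ≤ ζ₁ / 4 ∧
      √ε ≤ ζ₁ / 32 ∧ √ε ≤ t / 4 := by
    refine ⟨min (min (1 / 4) (ζ₁ / 4)) (min ((ζ₁ / 32) ^ 2) ((t / 4) ^ 2)), by positivity,
      (min_le_left _ _).trans (min_le_left _ _), (min_le_left _ _).trans (min_le_right _ _),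
      ?_, ?_⟩
    · apply Real.sqrt_le_iff.2
      exact ⟨by positivity, (min_le_right _ _).trans (min_le_left _ _)⟩
    · apply Real.sqrt_le_iff.2
      exact ⟨by positivity, (min_le_right _ _).trans (min_le_right _ _)⟩
  obtain ⟨e, c, he, hc, hM⟩ := chatter (V := b) (α := α) (β := b) (P := P) (Y := Y) (Z := Z)
    (by rw [abs_of_pos hb0]; linarith) hα0 hαb (by linarith) hP hPα hPβ hY hYα hZ hZα hε0
  rw [hYβ, sub_zero] at he
  have hse : √|e| ≤ √ε := Real.sqrt_le_sqrt he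
  obtain ⟨c₂, hc₂, hM₂⟩ := ybump (x := b) (v := b) (y := e) (d := -e)
    (by rw [abs_of_pos hb0]; linarith) (by rw [abs_of_pos hb0]; linarith) (by linarith)
    (by rw [abs_neg]; linarith)
  rw [abs_neg] at hc₂ hM₂
  have m1 := vmove 0 0 b
  have m2 := xmove 0 α b
  have m3 := xmove b 0 b
  have m4 := vmove 0 b 0
  rw [add_neg_cancel] at hM₂
  have hall := ((((m1.trans m2).trans hM).trans hM₂).trans m3).trans m4
  obtain ⟨hc1, hc2⟩ := abs_le.1 hc
  obtain ⟨hd1, hd2⟩ := abs_le.1 hc₂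
  have hT : |b - 0| + |α - 0| + (b - α) + 2 * √|e| + |0 - b| + |0 - b| = 4 * b + 2 * √|e| := by
    rw [sub_zero, sub_zero, zero_sub, abs_neg, abs_of_pos hb0, abs_of_pos hα0]
    ring
  refine ⟨4 * b + 2 * √|e|, -(c + c₂), ?_, ?_, ?_, ?_, ?_⟩
  · have := Real.sqrt_nonneg |e|
    linarith
  · linarith
  · linarith
  · linarith
  · refine hall.congr hT rfl rfl rfl rfl ?_
    ring

lemma abs_coord_le (w : E 5) (j : Fin 5) : |w j| ≤ ‖w‖ := by
  have := PiLp.norm_apply_le w j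
  simpa using this

lemma eq_st (w : E 5) : w = st (w 0) (w 1) (w 2) (w 3) (w 4) := by
  ext j
  fin_cases j <;> simp [st]

/-- The unperturbed family is small-time locally controllable at the origin. -/
lemma stlc_f0 : STLC f0 := by
  intro t ht
  set D₀ : ℝ := 23 / 60 * (t / 16) ^ 5 with hD₀
  have hD₀0 : 0 < D₀ := by positivity
  obtain ⟨T₁, ζ, hT₁0, hT₁, hζ0, hζ, hneg⟩ := neg_loop (t := t / 4) (ζ₀ := D₀ / 2)
    (by linarith) (by linarith)
  obtain ⟨u, hu0, hu1, huζ, hut⟩ : ∃ u : ℝ, 0 < u ∧ u ≤ 1 / 2 ∧ 40 * u ≤ ζ ∧ 40 * u ≤ t :=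
    ⟨min (1 / 2) (min (ζ / 40) (t / 40)), by positivity, min_le_left _ _, by
      have := (min_le_right (1 / 2) (min (ζ / 40) (t / 40))).trans (min_le_left _ _)
      linarith, by
      have := (min_le_right (1 / 2) (min (ζ / 40) (t / 40))).trans (min_le_right _ _)
      linarith⟩
  rw [mem_interior_iff_mem_nhds, Metric.mem_nhds_iff]
  refine ⟨u ^ 2 / 2, by positivity, ?_⟩
  intro w hw
  rw [mem_ball_zero_iff] at hw
  have hcoord : ∀ j, |w j| < u ^ 2 / 2 := fun j => (abs_coord_le w j).trans_lt hw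
  have hu2 : u ^ 2 / 2 ≤ u / 4 := by nlinarith
  have h0 := hcoord 0
  have h1 := hcoord 1
  have h2 := hcoord 2
  have h3 := hcoord 3
  have h4 := hcoord 4
  set d := w 3 - w 1 * |w 1| / 2 with hd
  have hd2 : |d| ≤ u ^ 2 := by
    have e1 : |w 1 * |w 1| / 2| = |w 1| * |w 1| / 2 := by
      rw [abs_div, abs_mul, abs_abs, abs_two]
    have e2 : |d| ≤ |w 3| + |w 1 * |w 1| / 2| := abs_sub _ _
    rw [e1] at e2
    have e3 := abs_nonneg (w 1)
    nlinarith
  have hsd : √|d| ≤ u := Real.sqrt_le_iff.2 ⟨hu0.le, hd2⟩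
  have hsd0 := Real.sqrt_nonneg |d|
  obtain ⟨c₁, hc₁, m3⟩ := ybump (x := w 0) (v := w 2) (y := 0) (d := d) (by linarith)
    (by linarith) (by simp) (by nlinarith)
  obtain ⟨c₂, hc₂, m4⟩ := pmove (x := w 0) (v := w 2) (y := 0 + d) (p₁ := w 1) (by linarith)
    (by linarith) (by rw [zero_add]; nlinarith) (by linarith)
  have m1 := xmove 0 (w 0) 0
  have m2 := vmove (w 0) 0 (w 2)
  have hfin := ((m1.trans m2).trans m3).trans m4
  obtain ⟨a1, a2⟩ := abs_le.1 hc₁
  obtain ⟨b1, b2⟩ := abs_le.1 hc₂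
  obtain ⟨z1, z2⟩ := abs_le.1 h4.le
  set D := w 4 + ζ - (c₁ + c₂) with hD
  have hD1 : 0 ≤ D := by linarith
  have hD2 : D ≤ D₀ := by linarith
  set a := (60 * D / 23) ^ ((5 : ℕ) : ℝ)⁻¹ with ha
  have ha5 : a ^ 5 = 60 * D / 23 := Real.rpow_inv_natCast_pow (by positivity) (by norm_num)
  have ha0 : 0 ≤ a := by positivity
  have hat : a ≤ t / 16 := by
    rw [← pow_le_pow_iff_left₀ ha0 (by positivity) (by norm_num : (5 : ℕ) ≠ 0), ha5]
    rw [hD₀] at hD2
    linarith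
  have hloop := ploop ha0
  have hcost : 23 / 60 * a ^ 5 = D := by rw [ha5]; ring
  rw [hcost] at hloop
  have hall := (hloop.trans hneg).trans hfin
  have hstart : Conn f0 (0 : E 5) 0 (st 0 0 0 0 0) := by
    have : (st 0 0 0 0 0 : E 5) = 0 := by
      ext j; fin_cases j <;> simp [st]
    rw [this]
    exact Conn.refl
  have hend := hall 0 0 0 hstart
  have hy : (0 : ℝ) + d + w 1 * |w 1| / 2 = w 3 := by rw [hd]; ring
  have hz : (0 : ℝ) + (D + -ζ + (0 + 0 + c₁ + c₂)) = w 4 := by rw [hD]; ring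
  rw [hy, hz, ← eq_st w] at hend
  apply hend.mem_attainable
  · have := abs_nonneg (w 0 - 0)
    have := abs_nonneg (w 2 - 0)
    have := abs_nonneg (w 1)
    linarith
  · rw [sub_zero, sub_zero]
    linarith

end

/-! STLCTaylor -/

noncomputable section

lemma contDiff_fld (i : Fin 8) {n : WithTop ℕ∞} : ContDiff ℝ n (fld 0 0 i) := by
  rw [contDiff_euclidean]
  intro j
  have hc : ∀ l : Fin 5, ContDiff ℝ n (fun q : E 5 => q l) := fun l =>
    (EuclideanSpace.proj l : E 5 →L[ℝ] ℝ).contDiff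
  fin_cases j
  · simpa [fld] using contDiff_const
  · simpa [fld] using contDiff_const
  · simpa [fld] using contDiff_const
  · simpa [fld] using hc 1
  · have h : ContDiff ℝ n (fun q : E 5 => (q 0 * q 1 + q 3 / 2) ^ 2 - q 2 * q 3 ^ 2) :=
      ((((hc 0).mul (hc 1)).add ((hc 3).div_const 2)).pow 2).sub ((hc 2).mul ((hc 3).pow 2))
    simpa [fld] using h

lemma isPolynomial_fld (e : ℝ) (m : ℕ) (i : Fin 8) : IsPolynomialField (fld e m i) := by
  refine ⟨![MvPolynomial.C (ctl i).1, MvPolynomial.C (ctl i).2.1, MvPolynomial.C (ctl i).2.2,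
    MvPolynomial.X 1, (MvPolynomial.X 0 * MvPolynomial.X 1 + MvPolynomial.C (1 / 2) *
      MvPolynomial.X 3) ^ 2 - MvPolynomial.X 2 * MvPolynomial.X 3 ^ 2 +
      MvPolynomial.C e * MvPolynomial.X 2 ^ (2 * m)], ?_⟩
  intro q j
  fin_cases j <;> simp [fld]
  ring

end

lemma analytic_fld (i : Fin 8) : AnalyticOnNhd ℝ (fld 0 0 i) univ :=
  contDiff_omega_iff_analyticOnNhd.1 (contDiff_fld i)

/-- There is a family of eight polynomial vector fields on `ℝ ^ 5` which is small-time locally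
controllable at the origin, but for every `N` and all small `t > 0` the attainable set in time less
than `t` does not contain the closed ball of radius `t ^ N`. -/
theorem result : ∃ f : Fin 8 → E 5 → E 5,
    (∀ i, IsPolynomialField (f i) ∧ AnalyticOnNhd ℝ (f i) univ) ∧ STLC f ∧
    ∀ N : ℕ, ∃ t₀ > 0, ∀ t, 0 < t → t < t₀ →
      ¬ Metric.closedBall (0 : E 5) (t ^ N) ⊆ Attainable f t := by
  refine ⟨f0, fun i => ⟨isPolynomial_fld 0 0 i, analytic_fld i⟩, stlc_f0, fun N => ?_⟩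
  obtain ⟨T₀, hT₀, hT₀', hthr⟩ := exists_threshold N
  refine ⟨T₀, hT₀, fun t ht htT hsub => ?_⟩
  have hpos : 0 < t ^ N := pow_pos ht N
  let w : E 5 := EuclideanSpace.single 4 (-(t ^ N))
  have hw : w ∈ Metric.closedBall (0 : E 5) (t ^ N) := by
    rw [mem_closedBall_zero_iff, show ‖w‖ = ‖-(t ^ N)‖ from PiLp.norm_single 2 _ _ _, norm_neg,
      Real.norm_eq_abs, abs_of_pos hpos]
  have h2 := reachable_lower hT₀' hthr htT.le (hsub hw) (by simp [w])
  have h3 : t ^ (2 * N + 1) ≤ t ^ N := pow_le_pow_of_le_one ht.le (by linarith) (by omega)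
  simp only [w, PiLp.single_apply, if_true] at h2
  linarith

end Pool.Agent.Results.MP_d7bfcb_an.FlatReach
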